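import Pool.Agent.H54.Fl.Count

/-!
# Floodlights, lower bound for every `n`: end blocks

The polygon consists of `k` periods of helper54's polygon (`Pool.Agent.H54.Fl`) followed by an
end block `E` with `a + b` further vertices, which needs `K` further floodlights.  This file has
the data type of the end blocks and the finite conditions.
-/

set_option autoImplicit false

namespace Pool.Agent.H84.Fl

open Pool.Agent.H54.Fl

/-- data of an end block: `vs` the vertices (`0` the door, `0, …, a` the lower chain, `a` the right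
end, `a + 1, …, a + b` the upper chain from right to left), `ws` the witness points, `os` for each
witness the floodlights which may illuminate it (`true`: aligned to the next edge) -/
structure Blk where
  a : ℕ
  b : ℕ
  K : ℕ
  vs : List (ℤ × ℤ)
  ws : List (ℤ × ℤ)
  os : List (List (ℕ × Bool))

namespace Blk

variable (E : Blk)

/-- the vertices -/
def v (r : ℕ) : ℤ × ℤ := E.vs.getD r (0, 0)

/-- the witnesses -/
def w (i : ℕ) : ℤ × ℤ := E.ws.getD i (0, 0)

/-- the number of witnesses -/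
def m : ℕ := E.ws.length

/-- the lights for the witness `i` -/
def o (i : ℕ) : List (ℕ × Bool) := E.os.getD i []

/-- upper vertices to the left of a witness -/
def bl (s : ℕ) : ℤ × ℤ := if s = E.a then un (V 11) else E.v s

/-- upper vertices to the right of a witness of the previous period -/
def br (s : ℕ) : ℤ × ℤ := if s = 10 then sh (E.v (E.a + E.b)) else V s

/-- a neighbour of the vertex `r` -/
def nb (r : ℕ) : ℕ := if r < E.a then r + 1 else r - 1

end Blk

/-- is there a choice of at most `c` more lights which covers all witnesses? -/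
def search : List (List (ℕ × Bool)) → List (ℕ × Bool) → ℕ → Bool
  | [], _, _ => true
  | o :: os, ch, c =>
    if o.any (fun x => ch.contains x) then search os ch c
    else match c with
      | 0 => false
      | c + 1 => o.any fun x => !(ch.contains (x.1, !x.2)) && search os (x :: ch) c

/-- the vertex `r` of the end block does not see the witness `w` of the previous period -/
def RightP (E : Blk) (w r : ℕ) : Prop :=
  (∃ s < 15, blk (sh (E.v r)) (W w) (V s) (decide (10 < s)) = true) ∨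
    ∃ i < 11, (W w).1 < (V i).1 ∧ (V i).1 ≤ (sh (E.v r)).1 ∧ ∃ s < 15, 10 ≤ s ∧
      (W w).1 < (E.br s).1 ∧ (E.br s).1 ≤ (sh (E.v r)).1 ∧ oz (W w) (V i) (E.br s) < 0

instance (E : Blk) (w r : ℕ) : Decidable (RightP E w r) := by
  unfold RightP
  infer_instance

/-- the vertex `r` is reflex -/
def ReflP (E : Blk) (r : ℕ) : Prop :=
  (0 < r ∧ r < E.a ∧ oz (E.v (r - 1)) (E.v r) (E.v (r + 1)) < 0) ∨
    (E.a < r ∧ r < E.a + E.b ∧ 0 < oz (E.v (r + 1)) (E.v r) (E.v (r - 1))) ∨ r = E.a + E.b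

instance (E : Blk) (r : ℕ) : Decidable (ReflP E r) := by
  unfold ReflP
  infer_instance

/-- the two positions of a light exclude each other -/
def ExcP (E : Blk) (i j : ℕ) (x y : ℕ × Bool) : Prop :=
  x.2 = true → y.2 = false → x.1 = y.1 →
    excl (E.v x.1) (E.w i) (E.w j) (E.v (E.nb x.1)) = true ∧ ReflP E x.1

instance (E : Blk) (i j : ℕ) (x y : ℕ × Bool) : Decidable (ExcP E i j x y) := by
  unfold ExcP
  infer_instance

/-- the finite conditions for an end block -/
structure Ok (E : Blk) : Prop where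
  ha : 2 ≤ E.a
  hb : 1 ≤ E.b
  hK : 1 ≤ E.K
  v0 : E.v 0 = (0, 0)
  lox : ∀ r < E.a, (E.v r).1 < (E.v (r + 1)).1
  hix : ∀ s < E.a + E.b + 1, E.a < s → (E.v s).1 < (E.v (s - 1)).1
  nx0 : 0 < (E.v (E.a + E.b)).1
  pair : ∀ r < E.a, ∀ s < E.a + E.b + 1, E.a < s → (r + 1 = E.a ∧ s = E.a + 1) ∨
    okp (E.v r) (E.v (r + 1)) (E.v s) (E.v (s - 1)) = true
  pair_r : 0 < oz (E.v (E.a - 1)) (E.v E.a) (E.v (E.a + 1))
  pair_l : ∀ r < E.a, okp (E.v r) (E.v (r + 1)) (un (V 11)) (E.v (E.a + E.b)) = true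
  pair_l0 : ∀ r < E.a, 0 < r → okp (E.v r) (E.v (r + 1)) (V 0) (E.v (E.a + E.b)) = true
  pair_l00 : oz (V 0) (E.v (E.a + E.b)) (E.v 1) < 0
  pair_p : ∀ r < 10, okp (V r) (V (r + 1)) (V 11) (sh (E.v (E.a + E.b))) = true
  gen_lo : ∀ r < E.a, r + 1 < E.a → oz (E.v r) (E.v (r + 1)) (E.v (r + 2)) ≠ 0
  gen_hi : ∀ s < E.a + E.b + 1, E.a + 1 < s → oz (E.v s) (E.v (s - 1)) (E.v (s - 2)) ≠ 0
  door : oz (V 9) (V 10) (sh (E.v 1)) < 0
  hil : 0 < oz (un (V 11)) (E.v (E.a + E.b)) (E.v (E.a + E.b - 1))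
  hil0 : 0 < oz (V 0) (E.v (E.a + E.b)) (E.v (E.a + E.b - 1))
  hir : 0 < oz (V 12) (V 11) (sh (E.v (E.a + E.b)))
  whiA : ∀ w < 13, (V 11).1 ≤ (W w).1 → (W w).1 ≤ 2453 →
    oz (V 11) (sh (E.v (E.a + E.b))) (W w) ≤ 0
  wlo : ∀ i < E.m, ∃ r < E.a, (E.v r).1 ≤ (E.w i).1 ∧ (E.w i).1 ≤ (E.v (r + 1)).1 ∧
    0 ≤ oz (E.v r) (E.v (r + 1)) (E.w i)
  whi : ∀ i < E.m, (∃ s < E.a + E.b + 1, E.a < s ∧ (E.v s).1 ≤ (E.w i).1 ∧
      (E.w i).1 ≤ (E.v (s - 1)).1 ∧ oz (E.v s) (E.v (s - 1)) (E.w i) ≤ 0) ∨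
    (0 ≤ (E.w i).1 ∧ (E.w i).1 ≤ (E.v (E.a + E.b)).1 ∧
      oz (V 0) (E.v (E.a + E.b)) (E.w i) ≤ 0 ∧ oz (un (V 11)) (E.v (E.a + E.b)) (E.w i) ≤ 0)
  loc : ∀ i < E.m, ∀ r < E.a + E.b + 1, ((r, true) ∈ E.o i ∨ (r, false) ∈ E.o i) ∨
    ∃ s < E.a + E.b + 1, blk (E.v r) (E.w i) (E.v s) (decide (E.a < s)) = true
  left : ∀ i < E.m, ∃ r < E.a + 1, (E.v r).1 < (E.w i).1 ∧ ∃ s < E.a + E.b + 1, E.a ≤ s ∧
    (E.bl s).1 < (E.w i).1 ∧ oz (E.v r) (E.w i) (E.bl s) < 0
  right : ∀ w < 13, ∀ r < E.a + E.b + 1, 0 < r → RightP E w r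
  exc : ∀ i < E.m, ∀ x ∈ E.o i, ∀ j < E.m, ∀ y ∈ E.o j, ExcP E i j x y
  doorx : ∀ i < E.m, ∀ x ∈ E.o i, x.1 = 0 → excl (V 10) (sh (E.w i)) (W 11) (V 9) = true
  len : E.os.length = E.m
  cov : search E.os [] (E.K - 1) = false

/-- soundness of the search -/
theorem search_sound (C : Finset (ℕ × Bool)) (hC : ∀ x ∈ C, (x.1, !x.2) ∉ C) :
    ∀ (os : List (List (ℕ × Bool))) (ch : List (ℕ × Bool)) (c : ℕ), ch.Nodup →
      (∀ x ∈ ch, x ∈ C) → C.card ≤ ch.length + c → (∀ o ∈ os, ∃ x ∈ o, x ∈ C) →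
      search os ch c = true := by
  intro os
  induction os with
  | nil => intro ch c _ _ _ _; rfl
  | cons o os ih =>
    intro ch c hnd hch hcard hcov
    unfold search
    by_cases h1 : o.any (fun x => ch.contains x) = true
    · rw [if_pos h1]
      exact ih ch c hnd hch hcard fun o' ho' => hcov o' (List.mem_cons_of_mem _ ho')
    · rw [if_neg h1]
      obtain ⟨x, hx, hxC⟩ := hcov o List.mem_cons_self
      have hxch : x ∉ ch := by
        intro h2
        apply h1
        rw [List.any_eq_true]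
        exact ⟨x, hx, List.contains_iff_mem.2 h2⟩
      have hlen : ch.length < C.card := by
        have h3 : ch.toFinset ⊂ C := by
          refine ⟨fun y hy => hch y (List.mem_toFinset.1 hy), fun h4 => hxch ?_⟩
          exact List.mem_toFinset.1 (h4 hxC)
        have h5 := Finset.card_lt_card h3
        rwa [List.toFinset_card_of_nodup hnd] at h5
      cases c with
      | zero => omega
      | succ c =>
        simp only
        rw [List.any_eq_true]
        refine ⟨x, hx, ?_⟩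
        rw [Bool.and_eq_true]
        refine ⟨?_, ?_⟩
        · rw [Bool.not_eq_true', ← Bool.not_eq_true, List.contains_iff_mem]
          exact fun h2 => hC x hxC (hch _ h2)
        · refine ih (x :: ch) c (List.nodup_cons.2 ⟨hxch, hnd⟩) ?_ ?_
            fun o' ho' => hcov o' (List.mem_cons_of_mem _ ho')
          · intro y hy
            rcases List.mem_cons.1 hy with rfl | hy
            · exact hxC
            · exact hch y hy
          · rw [List.length_cons]
            omega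

end Pool.Agent.H84.Fl
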