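import Pool.Agent.H84.Fl.Blk

/-!
# The polygon with `k` periods and an end block
-/

set_option autoImplicit false

namespace Pool.Agent.H84.Fl

open Set Pool.Agent.H54.Fl

/-- the lower chain -/
noncomputable def lo (E : Blk) (k i : ℕ) : ℝ × ℝ :=
  if i ≤ 10 * k then Pool.Agent.H54.Fl.lo i else T k (E.v (i - 10 * k))

/-- the upper chain -/
noncomputable def hi (E : Blk) (k i : ℕ) : ℝ × ℝ :=
  if i = 0 then T 0 (V 0) else if i ≤ 4 * k then T ((i - 1) / 4) (V (14 - (i - 1) % 4))
    else T k (E.v (E.a + E.b + 1 - (i - 4 * k)))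

variable {E : Blk} {k : ℕ}

theorem loA (E : Blk) {j r : ℕ} (hj : j < k) (hr : r ≤ 10) :
    lo E k (10 * j + r) = T j (V r) := by
  unfold lo
  rw [if_pos (by omega)]
  exact lo_eq j hr

theorem loE (h : Ok E) (k r : ℕ) : lo E k (10 * k + r) = T k (E.v r) := by
  unfold lo
  rcases Nat.eq_zero_or_pos r with h0 | h0
  · subst h0
    rw [if_pos (by omega), h.v0, lo_eq k (Nat.zero_le _)]
    rfl
  · rw [if_neg (by omega), show 10 * k + r - 10 * k = r by omega]

theorem hiA (E : Blk) {j r : ℕ} (hj : j < k) (h1 : 11 ≤ r) (h2 : r ≤ 14) :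
    hi E k (4 * j + (15 - r)) = T j (V r) := by
  unfold hi
  rw [if_neg (by omega), if_pos (by omega), show (4 * j + (15 - r) - 1) / 4 = j by omega,
    show 14 - (4 * j + (15 - r) - 1) % 4 = r by omega]

theorem hiE (E : Blk) (k : ℕ) {r : ℕ} (h2 : r ≤ E.a + E.b) :
    hi E k (4 * k + (E.a + E.b + 1 - r)) = T k (E.v r) := by
  unfold hi
  rw [if_neg (by omega), if_neg (by omega),
    show E.a + E.b + 1 - (4 * k + (E.a + E.b + 1 - r) - 4 * k) = r by omega]

theorem hi0 (E : Blk) (k : ℕ) : hi E k 0 = T 0 (V 0) := if_pos rfl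

theorem lo0 (h : Ok E) (k : ℕ) : lo E k 0 = T 0 (V 0) := by
  rcases Nat.eq_zero_or_pos k with h0 | h0
  · subst h0
    have := loE h 0 0
    rw [h.v0] at this
    exact this
  · exact loA (j := 0) (r := 0) E h0 (Nat.zero_le _)

/-- the edges of the lower chain -/
theorem lo_cases (h : Ok E) (k : ℕ) {i : ℕ} (hi' : i < 10 * k + E.a) :
    (∃ j r, j < k ∧ r < 10 ∧ i = 10 * j + r ∧ lo E k i = T j (V r) ∧
      lo E k (i + 1) = T j (V (r + 1))) ∨
    (∃ r, r < E.a ∧ i = 10 * k + r ∧ lo E k i = T k (E.v r) ∧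
      lo E k (i + 1) = T k (E.v (r + 1))) := by
  rcases Nat.lt_or_ge i (10 * k) with h1 | h1
  · left
    obtain ⟨j, r, hr, rfl⟩ : ∃ j r, r < 10 ∧ i = 10 * j + r :=
      ⟨i / 10, i % 10, Nat.mod_lt _ (by norm_num), by omega⟩
    exact ⟨j, r, by omega, hr, rfl, loA E (by omega) hr.le, loA E (r := r + 1) (by omega)
      (by omega)⟩
  · right
    obtain ⟨r, rfl⟩ : ∃ r, i = 10 * k + r := ⟨i - 10 * k, by omega⟩
    exact ⟨r, by omega, rfl, loE h k r, loE h k (r + 1)⟩

/-- the edges of the upper chain -/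
theorem hi_cases (h : Ok E) (k : ℕ) {i : ℕ} (hi' : i < 4 * k + E.b + 1) :
    (i = 0 ∧ k = 0 ∧ hi E k i = T 0 (V 0) ∧ hi E k (i + 1) = T 0 (E.v (E.a + E.b))) ∨
    (i = 0 ∧ 0 < k ∧ hi E k i = T 0 (V 0) ∧ hi E k (i + 1) = T 0 (V 14)) ∨
    (∃ j r, j < k ∧ 12 ≤ r ∧ r ≤ 14 ∧ hi E k i = T j (V r) ∧ hi E k (i + 1) = T j (V (r - 1))) ∨
    (∃ j, j + 1 < k ∧ hi E k i = T j (V 11) ∧ hi E k (i + 1) = T (j + 1) (V 14)) ∨
    (∃ j, k = j + 1 ∧ hi E k i = T j (V 11) ∧ hi E k (i + 1) = T (j + 1) (E.v (E.a + E.b))) ∨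
    (∃ s, E.a < s ∧ s < E.a + E.b + 1 ∧ i = 4 * k + (E.a + E.b + 1 - s) ∧
      hi E k i = T k (E.v s) ∧ hi E k (i + 1) = T k (E.v (s - 1))) := by
  have hb := h.hb
  rcases Nat.lt_or_ge (4 * k) i with h1 | h1
  · right; right; right; right; right
    obtain ⟨s, hs1, hs2, rfl⟩ : ∃ s, E.a < s ∧ s < E.a + E.b + 1 ∧
        i = 4 * k + (E.a + E.b + 1 - s) := ⟨4 * k + E.a + E.b + 1 - i, by omega, by omega, by omega⟩
    refine ⟨s, hs1, hs2, rfl, hiE E k (by omega), ?_⟩
    rw [show 4 * k + (E.a + E.b + 1 - s) + 1 = 4 * k + (E.a + E.b + 1 - (s - 1)) by omega]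
    exact hiE E k (by omega)
  · rcases Nat.eq_zero_or_pos i with h0 | h0
    · subst h0
      rcases Nat.eq_zero_or_pos k with hk | hk
      · subst hk
        refine Or.inl ⟨rfl, rfl, hi0 E 0, ?_⟩
        have := hiE E 0 (r := E.a + E.b) le_rfl
        rwa [show 4 * 0 + (E.a + E.b + 1 - (E.a + E.b)) = 0 + 1 by omega] at this
      · right; left
        exact ⟨rfl, hk, hi0 E k, hiA (j := 0) (r := 14) E hk (by norm_num) le_rfl⟩
    · right; right
      obtain ⟨j, s, hs, rfl⟩ : ∃ j s, s < 4 ∧ i = 4 * j + (s + 1) :=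
        ⟨(i - 1) / 4, (i - 1) % 4, Nat.mod_lt _ (by norm_num), by omega⟩
      have hj : j < k := by omega
      have e1 : hi E k (4 * j + (s + 1)) = T j (V (14 - s)) := by
        have := hiA (j := j) (r := 14 - s) E hj (by omega) (by omega)
        rwa [show 15 - (14 - s) = s + 1 by omega] at this
      rcases Nat.lt_or_ge s 3 with h3 | h3
      · left
        refine ⟨j, 14 - s, hj, by omega, by omega, e1, ?_⟩
        have := hiA (j := j) (r := 14 - s - 1) E hj (by omega) (by omega)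
        rwa [show 15 - (14 - s - 1) = s + 1 + 1 by omega, ← add_assoc] at this
      · right
        obtain rfl : s = 3 := by omega
        rcases Nat.lt_or_ge (j + 1) k with h4 | h4
        · left
          refine ⟨j, h4, e1, ?_⟩
          have := hiA (j := j + 1) (r := 14) E h4 (by norm_num) le_rfl
          rwa [show 4 * (j + 1) + (15 - 14) = 4 * j + (3 + 1) + 1 by omega] at this
        · right; left
          obtain rfl : k = j + 1 := by omega
          refine ⟨j, rfl, e1, ?_⟩
          have := hiE E (j + 1) (r := E.a + E.b) le_rfl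
          rwa [show 4 * (j + 1) + (E.a + E.b + 1 - (E.a + E.b)) = 4 * j + (3 + 1) + 1 by omega]
            at this

theorem lo_x (h : Ok E) (k : ℕ) {i : ℕ} (hi' : i < 10 * k + E.a) :
    (lo E k i).1 < (lo E k (i + 1)).1 := by
  rcases lo_cases h k hi' with ⟨j, r, -, hr, -, h1, h2⟩ | ⟨r, hr, -, h1, h2⟩
  · rw [h1, h2]
    exact T_lt (chk_lox r hr)
  · rw [h1, h2]
    exact T_lt (h.lox r hr)

theorem hi_x (h : Ok E) (k : ℕ) {i : ℕ} (hi' : i < 4 * k + E.b + 1) :
    (hi E k i).1 < (hi E k (i + 1)).1 := by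
  rcases hi_cases h k hi' with ⟨-, -, h1, h2⟩ | ⟨-, -, h1, h2⟩ | ⟨j, r, hj, hr1, hr2, h1, h2⟩ |
    ⟨j, hj, h1, h2⟩ | ⟨j, hj, h1, h2⟩ | ⟨s, hs1, hs2, -, h1, h2⟩
  · rw [h1, h2]
    exact T_lt h.nx0
  · rw [h1, h2]
    exact T_lt (by decide)
  · rw [h1, h2]
    exact T_lt (chk_hix r (by omega) (by omega))
  · rw [h1, h2, T_succ]
    exact T_lt (by decide)
  · rw [h1, h2, T_succ]
    apply T_lt
    have h3 := h.nx0
    have h4 : (V 11).1 = 2372 := rfl
    have h5 : (sh (E.v (E.a + E.b))).1 = (E.v (E.a + E.b)).1 + 2453 := rfl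
    omega
  · rw [h1, h2]
    exact T_lt (h.hix s hs2 hs1)

/-- a lower edge below an upper edge, all points in the frame of the `j`-th period -/
theorem below_G {j : ℕ} {a a' b b' : ℤ × ℤ} {z : ℝ × ℝ} (ha : a.1 < a'.1) (hb : b.1 < b'.1)
    (h1 : (T j a).1 ≤ z.1) (h2 : z.1 ≤ (T j a').1) (h3 : (T j b).1 ≤ z.1)
    (h4 : z.1 ≤ (T j b').1) (hz : orient (T j a) (T j a') z = 0)
    (hok : okp a a' b b' = true) : orient (T j b) (T j b') z < 0 := by
  unfold okp okl okr at hok
  simp only [Bool.or_eq_true, Bool.and_eq_true, decide_eq_true_eq] at hok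
  have e1 : ¬ a'.1 < b.1 := by
    intro h
    have := T_lt (j := j) h
    linarith
  have e2 : ¬ b'.1 < a.1 := by
    intro h
    have := T_lt (j := j) h
    linarith
  rcases hok with (h | h) | ⟨hl, hr'⟩
  · exact absurd h e1
  · exact absurd h e2
  · refine below_of_ok (T_lt ha) (T_lt hb) h1 h2 h3 h4 hz ?_ ?_
    · rw [T_le', T_le', orient_T, orient_T]
      rcases hl with ⟨a1, a2⟩ | ⟨a1, a2⟩
      · exact Or.inl ⟨a1, by exact_mod_cast a2⟩
      · exact Or.inr ⟨a1, by exact_mod_cast a2⟩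
    · rw [T_le', T_le', orient_T, orient_T]
      rcases hr' with ⟨a1, a2⟩ | ⟨a1, a2⟩
      · exact Or.inl ⟨a1, by exact_mod_cast a2⟩
      · exact Or.inr ⟨a1, by exact_mod_cast a2⟩

/-- the vertices of the end block are to the right of the door -/
theorem v_lo_nonneg (h : Ok E) {r : ℕ} (hr : r ≤ E.a) : 0 ≤ (E.v r).1 := by
  induction r with
  | zero => rw [h.v0]
  | succ r ih => exact (ih (by omega)).trans (h.lox r (by omega)).le

theorem v_lo_le (h : Ok E) {r s : ℕ} (hrs : r ≤ s) (hs : s ≤ E.a) : (E.v r).1 ≤ (E.v s).1 := by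
  induction s with
  | zero =>
    obtain rfl : r = 0 := by omega
    exact le_rfl
  | succ s ih =>
    rcases Nat.lt_or_ge r (s + 1) with h1 | h1
    · exact (ih (by omega) (by omega)).trans (h.lox s (by omega)).le
    · obtain rfl : r = s + 1 := by omega
      exact le_rfl

theorem v_hi_le (h : Ok E) {s t : ℕ} (hst : s ≤ t) (hs : E.a ≤ s) (ht : t < E.a + E.b + 1) :
    (E.v t).1 ≤ (E.v s).1 := by
  induction t with
  | zero =>
    obtain rfl : s = 0 := by omega
    exact le_rfl
  | succ t ih =>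
    rcases Nat.lt_or_ge s (t + 1) with h1 | h1
    · have := h.hix (t + 1) ht (by omega)
      rw [Nat.add_sub_cancel] at this
      exact this.le.trans (ih (by omega) (by omega))
    · obtain rfl : s = t + 1 := by omega
      exact le_rfl

theorem v_hi_pos (h : Ok E) {s : ℕ} (hs : E.a ≤ s) (ht : s < E.a + E.b + 1) :
    (E.v (E.a + E.b)).1 ≤ (E.v s).1 := v_hi_le h (by omega) hs (by omega)

theorem lt_core (h : Ok E) {z : ℝ × ℝ} (hz0 : 0 < z.1) (hz1 : z.1 < (T k (E.v E.a)).1)
    {i i' : ℕ} (hi1 : i < 10 * k + E.a) (hi2 : i' < 4 * k + E.b + 1)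
    (h1 : (lo E k i).1 ≤ z.1) (h2 : z.1 ≤ (lo E k (i + 1)).1)
    (h3 : (hi E k i').1 ≤ z.1) (h4 : z.1 ≤ (hi E k (i' + 1)).1)
    (hz : orient (lo E k i) (lo E k (i + 1)) z = 0) :
    orient (hi E k i') (hi E k (i' + 1)) z < 0 := by
  have hnx := h.nx0
  have hnxR : (0 : ℝ) < ((E.v (E.a + E.b)).1 : ℝ) := by exact_mod_cast hnx
  have e11 : ((V 11).1 : ℝ) = 2372 := by norm_num [V]
  have e14 : ((V 14).1 : ℝ) = 238 := by norm_num [V]
  rcases lo_cases h k hi1 with ⟨j, r, hj, hr, -, g1, g2⟩ | ⟨r, hr, -, g1, g2⟩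
  · -- a lower edge of a period
    rw [g1] at h1 hz
    rw [g2] at h2 hz
    have hx1 : (j : ℝ) * 2453 ≤ z.1 := by
      have : (0 : ℝ) ≤ (V r).1 := by exact_mod_cast (V_x.1 r (by omega)).1
      rw [T_fst] at h1
      linarith
    have hx2 : z.1 ≤ (j : ℝ) * 2453 + 2453 := by
      have : ((V (r + 1)).1 : ℝ) ≤ 2453 := by exact_mod_cast (V_x.1 (r + 1) (by omega)).2
      rw [T_fst] at h2
      linarith
    have hjk : (j : ℝ) + 1 ≤ k := by exact_mod_cast hj
    rcases hi_cases h k hi2 with ⟨-, hk, -⟩ | ⟨-, hk, e1, e2⟩ | ⟨j', s, hj', hs1, hs2, e1, e2⟩ |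
      ⟨j', hj', e1, e2⟩ | ⟨j', hj', e1, e2⟩ | ⟨s, hs1, hs2, -, e1, e2⟩
    · omega
    · -- the first edge
      rw [e1, e2]
      rw [e1] at h3
      rw [e2] at h4
      have hj0 : j = 0 := by
        by_contra hne
        have : (1 : ℝ) ≤ j := by exact_mod_cast Nat.one_le_iff_ne_zero.2 hne
        rw [T_fst, e14, Nat.cast_zero, zero_mul, add_zero] at h4
        linarith
      subst hj0
      rcases Nat.eq_zero_or_pos r with hr0 | hr0
      · subst hr0
        refine below_left (T_lt chk_pair_l00.1) ?_ hz ?_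
        · rw [T_fst]
          have e : ((V 0).1 : ℝ) = 0 := by norm_num [V]
          rw [e, Nat.cast_zero]
          linarith
        · rw [orient_T]
          exact_mod_cast chk_pair_l00.2.2
      · exact below_G (chk_lox r hr) (by decide) h1 h2 h3 h4 hz (chk_pair_l0 r hr hr0)
    · -- an inner edge
      rw [e1, e2]
      rw [e1] at h3
      rw [e2] at h4
      have hjj : j' = j := by
        by_contra hne
        have a1 : (238 : ℝ) ≤ (V s).1 := by exact_mod_cast (V_x.2 s (by omega) (by omega)).1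
        have a2 : ((V (s - 1)).1 : ℝ) ≤ 2372 := by
          exact_mod_cast (V_x.2 (s - 1) (by omega) (by omega)).2
        rw [T_fst] at h3 h4
        rcases cast_cases hne with h | h
        · linarith
        · linarith
      subst hjj
      exact below_G (chk_lox r hr) (chk_hix s (by omega) (by omega)) h1 h2 h3 h4 hz
        (chk_pair r hr s (by omega) (by omega))
    · -- a door edge
      rw [e1, e2]
      rw [e1] at h3
      rw [e2] at h4
      have h3' := h3
      have h4' := h4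
      rw [T_fst, e11] at h3'
      rw [T_fst, e14, Nat.cast_add, Nat.cast_one] at h4'
      have hjj : j = j' ∨ j = j' + 1 := by
        by_contra hne
        rw [not_or] at hne
        rcases cast_cases hne.1 with h | h
        · linarith
        · rcases cast_cases hne.2 with h5 | h5
          · push_cast at h5
            have : j < j' + 1 := by exact_mod_cast (by linarith : (j : ℝ) < (j' : ℝ) + 1)
            have h6 : j' + 1 ≤ j := by exact_mod_cast h
            omega
          · push_cast at h5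
            linarith
      rcases hjj with rfl | rfl
      · rw [T_succ] at h4 ⊢
        exact below_G (chk_lox r hr) (by decide) h1 h2 h3 h4 hz (chk_pair_r r hr)
      · rw [← T_un j' (V 11)] at h3 ⊢
        exact below_G (chk_lox r hr) (by decide) h1 h2 h3 h4 hz (chk_pair_l r hr)
    · -- the last door edge
      rw [e1, e2]
      rw [e1] at h3
      rw [e2] at h4
      have h3' := h3
      rw [T_fst, e11] at h3'
      have hjj : j = j' := by
        by_contra hne
        have h5 : (j : ℝ) + 1 ≤ j' := by exact_mod_cast (by omega : j + 1 ≤ j')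
        linarith
      subst hjj
      rw [T_succ] at h4 ⊢
      refine below_G (chk_lox r hr) ?_ h1 h2 h3 h4 hz (h.pair_p r hr)
      have h4 : (V 11).1 = 2372 := rfl
      have h5 : (sh (E.v (E.a + E.b))).1 = (E.v (E.a + E.b)).1 + 2453 := rfl
      omega
    · -- an edge of the end block
      exfalso
      rw [e1, T_fst] at h3
      have h5 : ((E.v (E.a + E.b)).1 : ℝ) ≤ (E.v s).1 := by
        exact_mod_cast v_hi_pos h hs1.le hs2
      nlinarith
  · -- a lower edge of the end block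
    rw [g1] at h1 hz
    rw [g2] at h2 hz
    have hx1 : (k : ℝ) * 2453 ≤ z.1 := by
      have : (0 : ℝ) ≤ (E.v r).1 := by exact_mod_cast v_lo_nonneg h hr.le
      rw [T_fst] at h1
      linarith
    rcases hi_cases h k hi2 with ⟨-, hk, e1, e2⟩ | ⟨-, hk, e1, e2⟩ |
      ⟨j', s, hj', hs1, hs2, e1, e2⟩ | ⟨j', hj', e1, e2⟩ | ⟨j', hj', e1, e2⟩ |
      ⟨s, hs1, hs2, -, e1, e2⟩
    · subst hk
      rw [e1, e2]
      rw [e1] at h3
      rw [e2] at h4
      rcases Nat.eq_zero_or_pos r with hr0 | hr0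
      · subst hr0
        have h5 := h.lox 0 hr
        rw [h.v0] at h5 hz h1
        rw [zero_add] at h5 hz h2
        refine below_left (a' := T 0 (E.v 1)) (T_lt h5) ?_ hz ?_
        · rw [T_fst]
          have e : ((V 0).1 : ℝ) = 0 := by norm_num [V]
          rw [e, Nat.cast_zero]
          linarith
        · rw [orient_T]
          exact_mod_cast h.pair_l00
      · exact below_G (h.lox r hr) hnx h1 h2 h3 h4 hz (h.pair_l0 r hr hr0)
    · exfalso
      rw [e2, T_fst, e14, Nat.cast_zero, zero_mul, add_zero] at h4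
      have : (1 : ℝ) ≤ k := by exact_mod_cast hk
      linarith
    · exfalso
      have a2 : ((V (s - 1)).1 : ℝ) ≤ 2372 := by
        exact_mod_cast (V_x.2 (s - 1) (by omega) (by omega)).2
      have hjk : (j' : ℝ) + 1 ≤ k := by exact_mod_cast hj'
      rw [e2, T_fst] at h4
      linarith
    · exfalso
      have hjk : (j' : ℝ) + 2 ≤ k := by exact_mod_cast (by omega : j' + 2 ≤ k)
      rw [e2, T_fst, e14, Nat.cast_add, Nat.cast_one] at h4
      linarith
    · subst hj'
      rw [e1, e2]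
      rw [e1] at h3
      rw [e2] at h4
      rw [← T_un j' (V 11)] at h3 ⊢
      refine below_G (h.lox r hr) ?_ h1 h2 h3 h4 hz (h.pair_l r hr)
      have h5 : (un (V 11)).1 = -81 := rfl
      omega
    · rw [e1, e2]
      rw [e1] at h3
      rw [e2] at h4
      rcases h.pair r hr s hs2 hs1 with ⟨h5, h6⟩ | h5
      · subst h6
        have ha := h.ha
        rw [Nat.add_sub_cancel] at h4 ⊢
        have h7 := h.pair_r
        rw [show E.a - 1 = r by omega] at h7
        rw [h5] at hz h2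
        have h8 := h.lox r hr
        rw [h5] at h8
        refine below_right (T_lt h8) hz1 hz ?_
        rw [orient_T]
        exact_mod_cast h7
      · exact below_G (h.lox r hr) (h.hix s hs2 hs1) h1 h2 h3 h4 hz h5

theorem mono (h : Ok E) (k : ℕ) :
    Mono (10 * k + E.a) (4 * k + E.b + 1) (lo E k) (hi E k) where
  hm := by have := h.ha; omega
  hl := by have := h.hb; omega
  px := fun i hi' => lo_x h k hi'
  qx := fun i hi' => hi_x h k hi'
  h0 := by rw [hi0, lo0 h]
  h1 := by
    rw [loE h, show 4 * k + E.b + 1 = 4 * k + (E.a + E.b + 1 - E.a) by omega, hiE E k (by omega)]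
  lt := by
    intro x hx0 hx1
    have px : ∀ i < 10 * k + E.a, (lo E k i).1 < (lo E k (i + 1)).1 := fun i hi' => lo_x h k hi'
    have qx : ∀ i < 4 * k + E.b + 1, (hi E k i).1 < (hi E k (i + 1)).1 :=
      fun i hi' => hi_x h k hi'
    have e0 : ((V 0).1 : ℝ) = 0 := by norm_num [V]
    have hx0' : 0 < x := by
      rw [lo0 h, T_fst, e0, Nat.cast_zero] at hx0
      linarith
    have hx1' : x < (T k (E.v E.a)).1 := by
      rwa [loE h] at hx1
    have elast : hi E k (4 * k + E.b + 1) = T k (E.v E.a) := by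
      rw [show 4 * k + E.b + 1 = 4 * k + (E.a + E.b + 1 - E.a) by omega, hiE E k (by omega)]
    obtain ⟨i, hi', h1, h2⟩ := exists_edge px hx0.le hx1.le (by have := h.ha; omega)
    have g0 : (hi E k 0).1 ≤ x := by
      rw [hi0, ← lo0 h k]
      exact hx0.le
    have g1 : x ≤ (hi E k (4 * k + E.b + 1)).1 := by
      rw [elast]
      exact hx1'.le
    obtain ⟨i', hi'', h3, h4⟩ := exists_edge qx g0 g1 (by omega)
    by_contra hne
    rw [not_lt] at hne
    set z : ℝ × ℝ := (x, pl (10 * k + E.a) (lo E k) x) with hz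
    have a1 := (le_pl_iff px hi' (z := z) h1 h2).1 le_rfl
    have a2 := (pl_le_iff px hi' (z := z) h1 h2).1 le_rfl
    have a3 := (pl_le_iff qx hi'' (z := z) h3 h4).1 hne
    have a4 : orient (lo E k i) (lo E k (i + 1)) z = 0 := le_antisymm a1 a2
    have := lt_core h (z := z) hx0' hx1' hi' hi'' h1 h2 h3 h4 a4
    linarith

end Pool.Agent.H84.Fl
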