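import Pool.Agent.H84.Fl.Vis2

/-!
# The two positions of a floodlight exclude each other; counting
-/

set_option autoImplicit false

namespace Pool.Agent.H84.Fl

open Set Pool.Agent.H54.Fl

variable {E : Blk} {k : ℕ}

theorem inward_nb (h : Ok E) {j : ℕ} (hj : j < k) {r : ℕ} (hr : r < 15) (h0 : r ≠ 0)
    (h5 : r ≠ 5) (h10 : r ≠ 10) {N : ℝ × ℝ} (hN : N ≠ 0)
    (hin : InwardFacing (reg E k) (T j (V r)) (halfPlane (T j (V r)) N)) :
    N.1 * ((T j (V (nb r))).1 - (T j (V r)).1) +
      N.2 * ((T j (V (nb r))).2 - (T j (V r)).2) ≤ 0 := by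
  have hb := h.hb
  rcases Nat.lt_or_ge r 11 with h' | h'
  · obtain ⟨s, rfl⟩ : ∃ s, r = s + 1 := ⟨r - 1, by omega⟩
    have e0 : lo E k (10 * j + s) = T j (V s) := loA E hj (by omega)
    have e1 : lo E k (10 * j + s + 1) = T j (V (s + 1)) := by
      rw [add_assoc]
      exact loA E hj (by omega)
    have e2 : lo E k (10 * j + s + 2) = T j (V (s + 2)) := by
      rw [add_assoc]
      exact loA E hj (by omega)
    have hn : nb (s + 1) = s + 2 := by
      unfold nb
      rw [if_neg (by omega)]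
    rw [hn]
    have := ((mono h k).inward_lo (i := 10 * j + s) (by omega) (by
      rw [e0, e1, e2]
      exact cast_neg (chk_lo_orient s (by omega) (by omega))) hN (by
      rw [e1]
      exact hin)).1
    rwa [e1, e2] at this
  · rcases Nat.lt_or_ge r 14 with h'' | h''
    · have e0 : hi E k (4 * j + (14 - r)) = T j (V (r + 1)) := by
        have := hiA (r := r + 1) E hj (by omega) (by omega)
        rwa [show 15 - (r + 1) = 14 - r by omega] at this
      have e1 : hi E k (4 * j + (14 - r) + 1) = T j (V r) := by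
        rw [show 4 * j + (14 - r) + 1 = 4 * j + (15 - r) by omega]
        exact hiA E hj h' (by omega)
      have hn : nb r = r + 1 := by
        unfold nb
        rw [if_neg (by omega)]
      rw [hn]
      have := ((mono h k).inward_hi (i := 4 * j + (14 - r)) (by omega) (by
        rw [e0, e1]
        rcases Nat.lt_or_ge 11 r with h2 | h2
        · rw [show 4 * j + (14 - r) + 2 = 4 * j + (15 - (r - 1)) by omega,
            hiA E hj (by omega) (by omega)]
          exact cast_pos (chk_hi_orient (r + 1) (by omega) (by omega))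
        · obtain rfl : r = 11 := by omega
          rcases Nat.lt_or_ge (j + 1) k with h3 | h3
          · rw [show 4 * j + (14 - 11) + 2 = 4 * (j + 1) + (15 - 14) by omega,
              hiA E h3 (by norm_num) (by norm_num), T_succ]
            exact cast_pos chk_hi_orient_r
          · obtain rfl : k = j + 1 := by omega
            rw [show 4 * j + (14 - 11) + 2 = 4 * (j + 1) + 1 by omega, hiNext, T_succ]
            exact cast_pos h.hir) hN (by
        rw [e1]
        exact hin)).2
      rwa [e0, e1] at this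
    · obtain rfl : r = 14 := by omega
      have hn : nb 14 = 13 := rfl
      rw [hn]
      have e1 : hi E k (4 * j + 1) = T j (V 14) :=
        hiA (r := 14) E hj (by norm_num) (by norm_num)
      have e2 : hi E k (4 * j + 2) = T j (V 13) :=
        hiA (r := 13) E hj (by norm_num) (by norm_num)
      have := ((mono h k).inward_hi (i := 4 * j) (by omega) (by
        rw [e1, e2]
        rcases Nat.eq_zero_or_pos j with h2 | h2
        · subst h2
          rw [mul_zero, hi0]
          exact cast_pos chk_hi_orient_l0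
        · obtain ⟨i, rfl⟩ : ∃ i, j = i + 1 := ⟨j - 1, by omega⟩
          rw [show 4 * (i + 1) = 4 * i + (15 - 11) by omega,
            hiA E (by omega) (by norm_num) (by norm_num), ← T_un i (V 11)]
          exact cast_pos chk_hi_orient_l) hN (by
        rw [e1]
        exact hin)).1
      rwa [e1, e2] at this

theorem inward_door (h : Ok E) {j : ℕ} (hj : j < k) {N : ℝ × ℝ} (hN : N ≠ 0)
    (hin : InwardFacing (reg E k) (T j (V 10)) (halfPlane (T j (V 10)) N)) :
    N.1 * ((T j (V 9)).1 - (T j (V 10)).1) + N.2 * ((T j (V 9)).2 - (T j (V 10)).2) ≤ 0 := by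
  have ha := h.ha
  have e0 : lo E k (10 * j + 9) = T j (V 9) := loA E hj (by norm_num)
  have e1 : lo E k (10 * j + 9 + 1) = T j (V 10) := loA (r := 10) E hj (by norm_num)
  have := ((mono h k).inward_lo (i := 10 * j + 9) (by omega) (by
    rw [e0, e1, show 10 * j + 9 + 2 = 10 * (j + 1) + 1 by ring]
    rcases Nat.lt_or_ge (j + 1) k with h3 | h3
    · rw [loA E h3 (by norm_num), T_succ]
      exact cast_neg chk_door_orient
    · obtain rfl : k = j + 1 := by omega
      rw [loE h, T_succ]
      exact cast_neg h.door) hN (by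
    rw [e1]
    exact hin)).2
  rwa [e0, e1] at this

theorem inward_nbE (h : Ok E) (k : ℕ) {r : ℕ} (hr : r < E.a + E.b + 1) (href : ReflP E r)
    {N : ℝ × ℝ} (hN : N ≠ 0)
    (hin : InwardFacing (reg E k) (T k (E.v r)) (halfPlane (T k (E.v r)) N)) :
    N.1 * ((T k (E.v (E.nb r))).1 - (T k (E.v r)).1) +
      N.2 * ((T k (E.v (E.nb r))).2 - (T k (E.v r)).2) ≤ 0 := by
  have hb := h.hb
  have ha := h.ha
  rcases href with ⟨h1, h2, h3⟩ | ⟨h1, h2, h3⟩ | h1
  · have hn : E.nb r = r + 1 := if_pos h2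
    rw [hn]
    have e0 : lo E k (10 * k + (r - 1)) = T k (E.v (r - 1)) := loE h k _
    have e1 : lo E k (10 * k + (r - 1) + 1) = T k (E.v r) := by
      rw [show 10 * k + (r - 1) + 1 = 10 * k + r by omega]
      exact loE h k _
    have e2 : lo E k (10 * k + (r - 1) + 2) = T k (E.v (r + 1)) := by
      rw [show 10 * k + (r - 1) + 2 = 10 * k + (r + 1) by omega]
      exact loE h k _
    have := ((mono h k).inward_lo (i := 10 * k + (r - 1)) (by omega) (by
      rw [e0, e1, e2]
      exact cast_neg h3) hN (by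
      rw [e1]
      exact hin)).1
    rwa [e1, e2] at this
  · have hn : E.nb r = r - 1 := if_neg (by omega)
    rw [hn]
    have e0 : hi E k (4 * k + (E.a + E.b + 1 - (r + 1))) = T k (E.v (r + 1)) :=
      hiE E k (by omega)
    have e1 : hi E k (4 * k + (E.a + E.b + 1 - (r + 1)) + 1) = T k (E.v r) := by
      rw [show 4 * k + (E.a + E.b + 1 - (r + 1)) + 1 = 4 * k + (E.a + E.b + 1 - r) by omega]
      exact hiE E k (by omega)
    have e2 : hi E k (4 * k + (E.a + E.b + 1 - (r + 1)) + 2) = T k (E.v (r - 1)) := by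
      rw [show 4 * k + (E.a + E.b + 1 - (r + 1)) + 2 = 4 * k + (E.a + E.b + 1 - (r - 1)) by omega]
      exact hiE E k (by omega)
    have := ((mono h k).inward_hi (i := 4 * k + (E.a + E.b + 1 - (r + 1))) (by omega) (by
      rw [e0, e1, e2]
      exact cast_pos h3) hN (by
      rw [e1]
      exact hin)).1
    rwa [e1, e2] at this
  · have hn : E.nb r = r - 1 := if_neg (by omega)
    rw [hn]
    subst h1
    have e1 : hi E k (4 * k + 1) = T k (E.v (E.a + E.b)) := hiNext E k
    have e2 : hi E k (4 * k + 2) = T k (E.v (E.a + E.b - 1)) := hiNext2 h k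
    have := ((mono h k).inward_hi (i := 4 * k) (by omega) (by
      rw [e1, e2]
      rcases Nat.eq_zero_or_pos k with h2 | h2
      · subst h2
        rw [mul_zero, hi0]
        exact cast_pos h.hil0
      · obtain ⟨i, rfl⟩ : ∃ i, k = i + 1 := ⟨k - 1, by omega⟩
        rw [hiPrev]
        exact cast_pos h.hil) hN (by
      rw [e1]
      exact hin)).1
    rwa [e1, e2] at this

section

variable {S : Finset ℕ} {N : ℕ → ℝ × ℝ}

/-- the light at `v i` illuminates the `w`-th witness of the `j`-th period -/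
def LitW (E : Blk) (k : ℕ) (N : ℕ → ℝ × ℝ) (j i w : ℕ) : Prop :=
  Lit (reg E k) (vk E k i) (N i) (T j (W w))

/-- the light at `v i` illuminates the `w`-th witness of the end block -/
def LitE (E : Blk) (k : ℕ) (N : ℕ → ℝ × ℝ) (i w : ℕ) : Prop :=
  Lit (reg E k) (vk E k i) (N i) (T k (E.w w))

/-- the light at `v i` illuminates a witness of the `j`-th period -/
def LitA (E : Blk) (k : ℕ) (N : ℕ → ℝ × ℝ) (j i : ℕ) : Prop := ∃ w < 13, LitW E k N j i w

/-- the light at `v i` illuminates a witness of the end block -/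
def LitB (E : Blk) (k : ℕ) (N : ℕ → ℝ × ℝ) (i : ℕ) : Prop := ∃ w < E.m, LitE E k N i w

open Classical in
/-- the lights which illuminate a witness of the `j`-th period -/
noncomputable def lights (E : Blk) (k : ℕ) (S : Finset ℕ) (N : ℕ → ℝ × ℝ) (j : ℕ) : Finset ℕ :=
  S.filter fun i => LitA E k N j i

open Classical in
/-- the lights which illuminate a witness of the end block -/
noncomputable def lightsE (E : Blk) (k : ℕ) (S : Finset ℕ) (N : ℕ → ℝ × ℝ) : Finset ℕ :=
  S.filter fun i => LitB E k N i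

theorem card_lights (h : Ok E) {j : ℕ} (hj : j < k)
    (hS : IsLightSet (10 * k + E.a + (4 * k + E.b + 1)) (vk E k) S N)
    (hI : Illuminates (10 * k + E.a + (4 * k + E.b + 1)) (vk E k) S N) :
    9 ≤ (lights E k S N j).card := by
  classical
  let Q : ℕ → ℕ → Prop := fun r w => idx E k j r ∈ S ∧ LitW E k N j (idx E k j r) w
  let Nn : ℕ → Prop := fun r => ∃ w ∈ Nl r, w < 13 ∧ Q r w
  let Pp : ℕ → Prop := fun r => ∃ w ∈ Pl r, w < 13 ∧ Q r w
  have F1 : ∀ w < 13, ∃ r < 15, r ∈ allow w ∧ Q r w := by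
    intro w hw
    obtain ⟨i, hi1, hi2⟩ := hI _ (wit_mem h hj hw)
    obtain ⟨r, hr1, hr2, rfl⟩ := vis_allow h hj (hS i hi1).1 hw hi2.2
    exact ⟨r, hr1, hr2, hi1, hi2⟩
  have F2 : ∀ r < 15, r ≠ 0 → r ≠ 5 → r ≠ 10 → ¬ (Nn r ∧ Pp r) := by
    rintro r hr h0 h5 h10 ⟨⟨a, ha, -, ha2, ha3⟩, ⟨b, hb, -, -, hb3⟩⟩
    obtain ⟨-, hN, hin⟩ := hS _ ha2
    have e := vk_idx E hj hr
    rw [e] at hin
    have h1 := ha3.1
    have h2 := hb3.1
    rw [e] at h1 h2
    exact excl_T hN (chk_excl r hr h0 h5 h10 a ha b hb) (inward_nb h hj hr h0 h5 h10 hN hin) h1 h2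
  have tot : 9 ≤ ∑ r ∈ Finset.range 15, (if Nn r ∨ Pp r then 1 else 0) := by
    refine clauses (a := fun r => if Nn r then 1 else 0) (b := fun r => if Pp r then 1 else 0)
      (c := fun r => if Nn r ∨ Pp r then 1 else 0) ?_ ?_ ?_ ?_
    · intro w hw
      obtain ⟨r, hr1, hr2, hr3⟩ := F1 w hw
      refine ⟨r, hr2, ?_⟩
      rcases chk_allow w hw r hr1 hr2 with h' | h'
      · exact Or.inl ⟨h', if_pos ⟨w, h', hw, hr3⟩⟩
      · exact Or.inr ⟨h', if_pos ⟨w, h', hw, hr3⟩⟩
    · intro r
      by_cases h1 : Nn r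
      · simp only [if_pos h1, if_pos (Or.inl h1 : Nn r ∨ Pp r), le_refl]
      · simp only [if_neg h1, Nat.zero_le]
    · intro r
      by_cases h1 : Pp r
      · simp only [if_pos h1, if_pos (Or.inr h1 : Nn r ∨ Pp r), le_refl]
      · simp only [if_neg h1, Nat.zero_le]
    · intro r hr h0 h5 h10
      have h2 := F2 r hr h0 h5 h10
      by_cases h1 : Nn r
      · have h3 : ¬ Pp r := fun h => h2 ⟨h1, h⟩
        simp only [if_pos h1, if_neg h3, if_pos (Or.inl h1 : Nn r ∨ Pp r)]
        exact ⟨le_rfl, le_rfl⟩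
      · by_cases h3 : Pp r
        · simp only [if_neg h1, if_pos h3, if_pos (Or.inr h3 : Nn r ∨ Pp r)]
          exact ⟨le_rfl, le_rfl⟩
        · have h4 : ¬ (Nn r ∨ Pp r) := fun h => h.elim h1 h3
          simp only [if_neg h1, if_neg h3, if_neg h4]
          exact ⟨le_rfl, Nat.zero_le _⟩
  rw [← Finset.card_filter] at tot
  refine tot.trans (Finset.card_le_card_of_injOn (idx E k j) ?_ ?_)
  · intro r hr
    rw [Finset.mem_coe, Finset.mem_filter, Finset.mem_range] at hr
    rw [Finset.mem_coe]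
    unfold lights
    rw [Finset.mem_filter]
    rcases hr.2 with ⟨w, -, hw, h1, h2⟩ | ⟨w, -, hw, h1, h2⟩
    · exact ⟨h1, w, hw, h2⟩
    · exact ⟨h1, w, hw, h2⟩
  · intro r hr r' hr' heq
    rw [Finset.mem_coe, Finset.mem_filter, Finset.mem_range] at hr hr'
    have h1 := hr.1
    have h2 := hr'.1
    unfold idx at heq
    split_ifs at heq <;> omega

theorem card_lightsE (h : Ok E)
    (hS : IsLightSet (10 * k + E.a + (4 * k + E.b + 1)) (vk E k) S N)
    (hI : Illuminates (10 * k + E.a + (4 * k + E.b + 1)) (vk E k) S N) :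
    E.K ≤ (lightsE E k S N).card := by
  classical
  let C : Finset (ℕ × Bool) := ((Finset.range (E.a + E.b + 1)) ×ˢ Finset.univ).filter fun x =>
    10 * k + x.1 ∈ S ∧ ∃ w < E.m, x ∈ E.o w ∧ LitE E k N (10 * k + x.1) w
  have memC : ∀ x : ℕ × Bool, x ∈ C ↔ x.1 < E.a + E.b + 1 ∧ 10 * k + x.1 ∈ S ∧
      ∃ w < E.m, x ∈ E.o w ∧ LitE E k N (10 * k + x.1) w := by
    intro x
    simp only [C, Finset.mem_filter, Finset.mem_product, Finset.mem_range, Finset.mem_univ,
      and_true]
  have key : ∀ r : ℕ, (r, true) ∈ C → (r, false) ∈ C → False := by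
    intro r h1 h2
    rw [memC] at h1 h2
    obtain ⟨hr, hrS, i, hi', ho, hl⟩ := h1
    obtain ⟨-, -, j, hj', ho', hl'⟩ := h2
    obtain ⟨h3, h4⟩ := h.exc i hi' _ ho j hj' _ ho' rfl rfl rfl
    obtain ⟨-, hN, hin⟩ := hS _ hrS
    have e := vk_E h k hr
    simp only at e hin h3 h4 hN
    have g1 := hl.1
    have g2 := hl'.1
    simp only at g1 g2
    rw [e] at hin g1 g2
    exact excl_T hN h3 (inward_nbE h k hr h4 hN hin) g1 g2
  have hC : ∀ x ∈ C, (x.1, !x.2) ∉ C := by
    rintro ⟨r, b⟩ h1 h2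
    cases b
    · exact key r h2 h1
    · exact key r h1 h2
  have hcov : ∀ o ∈ E.os, ∃ x ∈ o, x ∈ C := by
    intro o ho
    obtain ⟨i, hi', rfl⟩ := List.mem_iff_getElem.1 ho
    have him : i < E.m := by rw [← h.len]; exact hi'
    have e : E.o i = E.os[i] := by
      unfold Blk.o
      rw [List.getD_eq_getElem?_getD, List.getElem?_eq_getElem hi', Option.getD_some]
    obtain ⟨s, hs1, hs2⟩ := hI _ (wit_memE h k him)
    obtain ⟨r, hr1, hr2, rfl⟩ := vis_allowE h (hS s hs1).1 him hs2.2
    rcases hr2 with hr2 | hr2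
    · refine ⟨(r, true), ?_, ?_⟩
      · rw [← e]
        exact hr2
      · rw [memC]
        exact ⟨hr1, hs1, i, him, hr2, hs2⟩
    · refine ⟨(r, false), ?_, ?_⟩
      · rw [← e]
        exact hr2
      · rw [memC]
        exact ⟨hr1, hs1, i, him, hr2, hs2⟩
  have hcard : E.K ≤ C.card := by
    by_contra hlt
    rw [not_le] at hlt
    have := search_sound C hC E.os [] (E.K - 1) List.nodup_nil (fun x hx => absurd hx (by simp))
      (by simp only [List.length_nil]; omega) hcov
    rw [h.cov] at this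
    exact Bool.false_ne_true this
  refine hcard.trans (Finset.card_le_card_of_injOn (fun x => 10 * k + x.1) ?_ ?_)
  · intro x hx
    rw [Finset.mem_coe, memC] at hx
    obtain ⟨-, hxS, w, hw, -, hl⟩ := hx
    rw [Finset.mem_coe]
    unfold lightsE
    rw [Finset.mem_filter]
    exact ⟨hxS, w, hw, hl⟩
  · rintro ⟨r, b⟩ hx ⟨r', b'⟩ hx' heq
    simp only at heq
    obtain rfl : r = r' := by omega
    rw [Finset.mem_coe] at hx hx'
    cases b
    · cases b'
      · rfl
      · exact (key r hx' hx).elim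
    · cases b'
      · exact (key r hx hx').elim
      · rfl

theorem disjoint_lights (h : Ok E) {j j' : ℕ} (hjj : j < j') (hj' : j' < k)
    (hS : IsLightSet (10 * k + E.a + (4 * k + E.b + 1)) (vk E k) S N) :
    Disjoint (lights E k S N j) (lights E k S N j') := by
  classical
  have hj : j < k := by omega
  rw [Finset.disjoint_left]
  intro i h1 h2
  unfold lights at h1 h2
  rw [Finset.mem_filter] at h1 h2
  obtain ⟨hiS, w, hw, hl⟩ := h1
  obtain ⟨-, w', hw', hl'⟩ := h2
  obtain ⟨hin, hN, hinw⟩ := hS i hiS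
  obtain ⟨r, hr1, hr2, hr3⟩ := vis_allow h hj hin hw hl.2
  obtain ⟨r', hr1', hr2', hr3'⟩ := vis_allow h hj' hin hw' hl'.2
  have hpos : j' = j + 1 ∧ r = 10 ∧ r' = 0 := by
    rw [hr3] at hr3'
    unfold idx at hr3'
    split_ifs at hr3' <;> omega
  obtain ⟨rfl, rfl, rfl⟩ := hpos
  have c1 : ∀ w < 13, 10 ∈ allow w → w = 11 := by decide
  have c2 : ∀ w < 13, 0 ∈ allow w → w = 0 := by decide
  obtain rfl := c1 w hw hr2
  obtain rfl := c2 w' hw' hr2'
  have e := vk_idx E hj (r := 10) (by norm_num)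
  rw [← hr3] at e
  have g1 := hl.1
  have g2 := hl'.1
  rw [e] at g1 g2 hinw
  rw [T_succ] at g2
  exact excl_T hN chk_door (inward_door h hj hN hinw) g2 g1

theorem disjoint_lightsE (h : Ok E) {j : ℕ} (hj : j < k)
    (hS : IsLightSet (10 * k + E.a + (4 * k + E.b + 1)) (vk E k) S N) :
    Disjoint (lights E k S N j) (lightsE E k S N) := by
  classical
  rw [Finset.disjoint_left]
  intro i h1 h2
  unfold lights at h1
  unfold lightsE at h2
  rw [Finset.mem_filter] at h1 h2
  obtain ⟨hiS, w, hw, hl⟩ := h1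
  obtain ⟨-, w', hw', hl'⟩ := h2
  obtain ⟨hin, hN, hinw⟩ := hS i hiS
  obtain ⟨r, hr1, hr2, hr3⟩ := vis_allow h hj hin hw hl.2
  obtain ⟨r', hr1', hr2', hr3'⟩ := vis_allowE h hin hw' hl'.2
  have hpos : k = j + 1 ∧ r = 10 ∧ r' = 0 := by
    rw [hr3] at hr3'
    unfold idx at hr3'
    split_ifs at hr3' <;> omega
  obtain ⟨rfl, rfl, rfl⟩ := hpos
  have c1 : ∀ w < 13, 10 ∈ allow w → w = 11 := by decide
  obtain rfl := c1 w hw hr2
  have e := vk_idx E hj (r := 10) (by norm_num)
  rw [← hr3] at e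
  have g1 := hl.1
  have g2 := hl'.1
  rw [e] at g1 g2 hinw
  rw [T_succ] at g2
  have hd : excl (V 10) (sh (E.w w')) (W 11) (V 9) = true := by
    rcases hr2' with h3 | h3
    · exact h.doorx w' hw' _ h3 rfl
    · exact h.doorx w' hw' _ h3 rfl
  exact excl_T hN hd (inward_door h hj hN hinw) g2 g1

theorem card_ge (h : Ok E) (hS : IsLightSet (10 * k + E.a + (4 * k + E.b + 1)) (vk E k) S N)
    (hI : Illuminates (10 * k + E.a + (4 * k + E.b + 1)) (vk E k) S N) :
    9 * k + E.K ≤ S.card := by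
  classical
  have h1 : ((Finset.range k).biUnion (lights E k S N)).card =
      ∑ j ∈ Finset.range k, (lights E k S N j).card := by
    apply Finset.card_biUnion
    intro j hj j' hj' hne
    rw [Finset.mem_coe, Finset.mem_range] at hj hj'
    rcases Nat.lt_or_gt_of_ne hne with h' | h'
    · exact disjoint_lights h h' hj' hS
    · exact (disjoint_lights h h' hj hS).symm
  have h2 : (Finset.range k).biUnion (lights E k S N) ∪ lightsE E k S N ⊆ S := by
    refine Finset.union_subset ?_ (Finset.filter_subset _ _)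
    rw [Finset.biUnion_subset]
    intro j _
    exact Finset.filter_subset _ _
  have h3 : ∑ j ∈ Finset.range k, 9 ≤ ∑ j ∈ Finset.range k, (lights E k S N j).card :=
    Finset.sum_le_sum fun j hj => card_lights h (Finset.mem_range.1 hj) hS hI
  rw [Finset.sum_const, Finset.card_range, smul_eq_mul] at h3
  have h4 := Finset.card_le_card h2
  have h5 : Disjoint ((Finset.range k).biUnion (lights E k S N)) (lightsE E k S N) := by
    rw [Finset.disjoint_biUnion_left]
    intro j hj
    exact disjoint_lightsE h (Finset.mem_range.1 hj) hS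
  rw [Finset.card_union_of_disjoint h5] at h4
  have h6 := card_lightsE h hS hI
  omega

end

end Pool.Agent.H84.Fl
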