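import Pool.Agent.H84.Fl.Blk

/-!
# The end blocks with 4 to 10 further vertices
-/

set_option autoImplicit false

namespace Pool.Agent.H84.Fl

open Pool.Agent.H54.Fl

/-- 4 further vertices, 2 floodlights -/
def E4 : Blk where
  a := 3
  b := 1
  K := 2
  vs := [(0, 0), (194, -44), (633, -70), (933, 225), (290, -49)]
  ws := [(234, -42), (924, 217)]
  os := [[(0, true), (1, true), (4, true)], [(2, true), (3, true), (4, false)]]

theorem ok4 : Ok E4 where
  ha := by decide +kernel
  hb := by decide +kernel
  hK := by decide +kernel
  v0 := by decide +kernel
  lox := by decide +kernel
  hix := by decide +kernel
  nx0 := by decide +kernel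
  pair := by decide +kernel
  pair_r := by decide +kernel
  pair_l := by decide +kernel
  pair_l0 := by decide +kernel
  pair_l00 := by decide +kernel
  pair_p := by decide +kernel
  gen_lo := by decide +kernel
  gen_hi := by decide +kernel
  door := by decide +kernel
  hil := by decide +kernel
  hil0 := by decide +kernel
  hir := by decide +kernel
  whiA := by decide +kernel
  wlo := by decide +kernel
  whi := by decide +kernel
  loc := by decide +kernel
  left := by decide +kernel
  right := by decide +kernel
  exc := by decide +kernel
  doorx := by decide +kernel
  len := by decide +kernel
  cov := by decide +kernel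

/-- 5 further vertices, 3 floodlights -/
def E5 : Blk where
  a := 4
  b := 1
  K := 3
  vs := [(0, 0), (100, -25), (121, -66), (137, -38), (271, -22), (155, -26)]
  ws := [(46, -11), (124, -55), (226, -27)]
  os := [[(0, true), (1, false), (5, true)], [(1, true), (2, true), (3, false)], [(3, true), (4,
    true), (5, false)]]

theorem ok5 : Ok E5 where
  ha := by decide +kernel
  hb := by decide +kernel
  hK := by decide +kernel
  v0 := by decide +kernel
  lox := by decide +kernel
  hix := by decide +kernel
  nx0 := by decide +kernel
  pair := by decide +kernel
  pair_r := by decide +kernel
  pair_l := by decide +kernel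
  pair_l0 := by decide +kernel
  pair_l00 := by decide +kernel
  pair_p := by decide +kernel
  gen_lo := by decide +kernel
  gen_hi := by decide +kernel
  door := by decide +kernel
  hil := by decide +kernel
  hil0 := by decide +kernel
  hir := by decide +kernel
  whiA := by decide +kernel
  wlo := by decide +kernel
  whi := by decide +kernel
  loc := by decide +kernel
  left := by decide +kernel
  right := by decide +kernel
  exc := by decide +kernel
  doorx := by decide +kernel
  len := by decide +kernel
  cov := by decide +kernel

/-- 6 further vertices, 3 floodlights -/
def E6 : Blk where
  a := 5
  b := 1
  K := 3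
  vs := [(0, 0), (100, -25), (121, -66), (137, -38), (271, -22), (275, -19), (155, -26)]
  ws := [(34, -8), (123, -58), (239, -23)]
  os := [[(0, true), (1, false), (6, true)], [(1, true), (2, true), (3, false)], [(3, true), (4,
    true), (5, true), (6, false)]]

theorem ok6 : Ok E6 where
  ha := by decide +kernel
  hb := by decide +kernel
  hK := by decide +kernel
  v0 := by decide +kernel
  lox := by decide +kernel
  hix := by decide +kernel
  nx0 := by decide +kernel
  pair := by decide +kernel
  pair_r := by decide +kernel
  pair_l := by decide +kernel
  pair_l0 := by decide +kernel
  pair_l00 := by decide +kernel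
  pair_p := by decide +kernel
  gen_lo := by decide +kernel
  gen_hi := by decide +kernel
  door := by decide +kernel
  hil := by decide +kernel
  hil0 := by decide +kernel
  hir := by decide +kernel
  whiA := by decide +kernel
  wlo := by decide +kernel
  whi := by decide +kernel
  loc := by decide +kernel
  left := by decide +kernel
  right := by decide +kernel
  exc := by decide +kernel
  doorx := by decide +kernel
  len := by decide +kernel
  cov := by decide +kernel

/-- 7 further vertices, 4 floodlights -/
def E7 : Blk where
  a := 6
  b := 1
  K := 4
  vs := [(0, 0), (100, -25), (121, -66), (137, -38), (271, -22), (316, -22), (341, -17), (155,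
    -26)]
  ws := [(18, -4), (121, -53), (233, -26), (318, -21)]
  os := [[(0, true), (1, false), (7, true)], [(1, true), (2, true), (3, false)], [(3, true), (4,
    false), (7, false)], [(4, true), (5, true), (6, true)]]

theorem ok7 : Ok E7 where
  ha := by decide +kernel
  hb := by decide +kernel
  hK := by decide +kernel
  v0 := by decide +kernel
  lox := by decide +kernel
  hix := by decide +kernel
  nx0 := by decide +kernel
  pair := by decide +kernel
  pair_r := by decide +kernel
  pair_l := by decide +kernel
  pair_l0 := by decide +kernel
  pair_l00 := by decide +kernel
  pair_p := by decide +kernel
  gen_lo := by decide +kernel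
  gen_hi := by decide +kernel
  door := by decide +kernel
  hil := by decide +kernel
  hil0 := by decide +kernel
  hir := by decide +kernel
  whiA := by decide +kernel
  wlo := by decide +kernel
  whi := by decide +kernel
  loc := by decide +kernel
  left := by decide +kernel
  right := by decide +kernel
  exc := by decide +kernel
  doorx := by decide +kernel
  len := by decide +kernel
  cov := by decide +kernel

/-- 8 further vertices, 5 floodlights -/
def E8 : Blk where
  a := 6
  b := 2
  K := 5
  vs := [(0, 0), (100, -25), (853, -596), (855, -2090), (856, -1439), (920, 3831), (1151, 5286),
    (1050, 4660), (232, -39)]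
  ws := [(860, -1072), (855, -2012), (182, -54), (58, -12), (1038, 4591), (1097, 4949), (499,
    773)]
  os := [[(2, true), (4, true), (5, false)], [(2, true), (3, true), (4, false)], [(1, true), (2,
    false), (8, true)], [(0, true), (1, false), (8, true)], [(5, true), (7, true), (8,
    false)], [(5, true), (6, true), (7, false)], [(2, false), (5, false), (8, false)]]

theorem ok8 : Ok E8 where
  ha := by decide +kernel
  hb := by decide +kernel
  hK := by decide +kernel
  v0 := by decide +kernel
  lox := by decide +kernel
  hix := by decide +kernel
  nx0 := by decide +kernel
  pair := by decide +kernel
  pair_r := by decide +kernel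
  pair_l := by decide +kernel
  pair_l0 := by decide +kernel
  pair_l00 := by decide +kernel
  pair_p := by decide +kernel
  gen_lo := by decide +kernel
  gen_hi := by decide +kernel
  door := by decide +kernel
  hil := by decide +kernel
  hil0 := by decide +kernel
  hir := by decide +kernel
  whiA := by decide +kernel
  wlo := by decide +kernel
  whi := by decide +kernel
  loc := by decide +kernel
  left := by decide +kernel
  right := by decide +kernel
  exc := by decide +kernel
  doorx := by decide +kernel
  len := by decide +kernel
  cov := by decide +kernel

/-- 9 further vertices, 5 floodlights -/
def E9 : Blk where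
  a := 7
  b := 2
  K := 5
  vs := [(0, 0), (100, -25), (853, -596), (855, -2090), (856, -1439), (920, 3831), (1151, 5286),
    (1154, 5308), (1050, 4660), (232, -39)]
  ws := [(861, -922), (855, -1873), (200, -84), (76, -18), (1005, 4396), (1149, 5276), (655,
    1771)]
  os := [[(2, true), (4, true), (5, false)], [(2, true), (3, true), (4, false)], [(1, true), (2,
    false), (9, true)], [(0, true), (1, false), (9, true)], [(5, true), (8, true), (9,
    false)], [(5, true), (6, true), (7, true), (8, false)], [(2, false), (5, false), (9,
    false)]]

theorem ok9 : Ok E9 where
  ha := by decide +kernel
  hb := by decide +kernel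
  hK := by decide +kernel
  v0 := by decide +kernel
  lox := by decide +kernel
  hix := by decide +kernel
  nx0 := by decide +kernel
  pair := by decide +kernel
  pair_r := by decide +kernel
  pair_l := by decide +kernel
  pair_l0 := by decide +kernel
  pair_l00 := by decide +kernel
  pair_p := by decide +kernel
  gen_lo := by decide +kernel
  gen_hi := by decide +kernel
  door := by decide +kernel
  hil := by decide +kernel
  hil0 := by decide +kernel
  hir := by decide +kernel
  whiA := by decide +kernel
  wlo := by decide +kernel
  whi := by decide +kernel
  loc := by decide +kernel
  left := by decide +kernel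
  right := by decide +kernel
  exc := by decide +kernel
  doorx := by decide +kernel
  len := by decide +kernel
  cov := by decide +kernel

/-- 10 further vertices, 6 floodlights -/
def E10 : Blk where
  a := 8
  b := 2
  K := 6
  vs := [(0, 0), (100, -25), (853, -596), (855, -2090), (856, -1439), (920, 3831), (1151, 5286),
    (1190, 5527), (1212, 5667), (1050, 4660), (232, -39)]
  ws := [(857, -1316), (855, -2046), (181, -86), (88, -17), (1022, 4497), (1111, 5035), (517,
    1008), (1189, 5521)]
  os := [[(2, true), (4, true), (5, false)], [(2, true), (3, true), (4, false)], [(1, true), (2,
    false), (10, true)], [(0, true), (1, false), (10, true)], [(5, true), (9, true), (10,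
    false)], [(5, true), (6, false), (9, false)], [(2, false), (5, false), (10, false)],
    [(6, true), (7, true), (8, true)]]

theorem ok10 : Ok E10 where
  ha := by decide +kernel
  hb := by decide +kernel
  hK := by decide +kernel
  v0 := by decide +kernel
  lox := by decide +kernel
  hix := by decide +kernel
  nx0 := by decide +kernel
  pair := by decide +kernel
  pair_r := by decide +kernel
  pair_l := by decide +kernel
  pair_l0 := by decide +kernel
  pair_l00 := by decide +kernel
  pair_p := by decide +kernel
  gen_lo := by decide +kernel
  gen_hi := by decide +kernel
  door := by decide +kernel
  hil := by decide +kernel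
  hil0 := by decide +kernel
  hir := by decide +kernel
  whiA := by decide +kernel
  wlo := by decide +kernel
  whi := by decide +kernel
  loc := by decide +kernel
  left := by decide +kernel
  right := by decide +kernel
  exc := by decide +kernel
  doorx := by decide +kernel
  len := by decide +kernel
  cov := by decide +kernel

end Pool.Agent.H84.Fl
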