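import Pool.Agent.H84.Fl.Blk

/-!
# The end blocks with 11 to 17 further vertices
-/

set_option autoImplicit false

namespace Pool.Agent.H84.Fl

open Pool.Agent.H54.Fl

/-- 11 further vertices, 7 floodlights -/
def E11 : Blk where
  a := 8
  b := 3
  K := 7
  vs := [(0, 0), (1000, -250), (6383, -1801), (6526, -12181), (6528, -20484), (6531, -3253),
    (7262, 1024), (138732, 96671), (824130, 594928), (16525, 7916), (9427, 2920), (3871,
    -650)]
  ws := [(6528, -19693), (6627, -2629), (56291, 36694), (231404, 164069), (15319, 7067), (9403,
    2904), (159, -35), (1148, -290), (6515, -6477), (5948, -456)]
  os := [[(3, true), (4, true), (5, false)], [(2, true), (5, true), (6, false)], [(6, true), (7,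
    false), (9, false)], [(7, true), (8, true), (9, false)], [(6, true), (9, true), (10,
    false)], [(6, true), (10, true), (11, false)], [(0, true), (1, false), (11, true)], [(1,
    true), (2, false), (11, true)], [(2, true), (3, false), (5, false)], [(2, false), (6,
    false), (11, false)]]

theorem ok11 : Ok E11 where
  ha := by decide +kernel
  hb := by decide +kernel
  hK := by decide +kernel
  v0 := by decide +kernel
  lox := by decide +kernel
  hix := by decide +kernel
  nx0 := by decide +kernel
  pair := by decide +kernel
  pair_r := by decide +kernel
  pair_l := by decide +kernel
  pair_l0 := by decide +kernel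
  pair_l00 := by decide +kernel
  pair_p := by decide +kernel
  gen_lo := by decide +kernel
  gen_hi := by decide +kernel
  door := by decide +kernel
  hil := by decide +kernel
  hil0 := by decide +kernel
  hir := by decide +kernel
  whiA := by decide +kernel
  wlo := by decide +kernel
  whi := by decide +kernel
  loc := by decide +kernel
  left := by decide +kernel
  right := by decide +kernel
  exc := by decide +kernel
  doorx := by decide +kernel
  len := by decide +kernel
  cov := by decide +kernel

/-- 12 further vertices, 7 floodlights -/
def E12 : Blk where
  a := 9
  b := 3
  K := 7
  vs := [(0, 0), (1000, -250), (6383, -1801), (6526, -12181), (6528, -20484), (6531, -3253),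
    (7262, 1024), (138732, 96671), (824130, 594928), (845778, 610683), (16525, 7916), (9427,
    2920), (3871, -650)]
  ws := [(6528, -19914), (6549, -3074), (129587, 90018), (832414, 600961), (14377, 6404), (8652,
    2421), (905, -226), (1101, -278), (6497, -10043), (6082, -480)]
  os := [[(3, true), (4, true), (5, false)], [(2, true), (5, true), (6, false)], [(6, true), (7,
    false), (10, false)], [(7, true), (8, true), (9, true), (10, false)], [(6, true), (10,
    true), (11, false)], [(6, true), (11, true), (12, false)], [(0, true), (1, false), (12,
    true)], [(1, true), (2, false), (12, true)], [(2, true), (3, false), (5, false)], [(2,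
    false), (6, false), (12, false)]]

theorem ok12 : Ok E12 where
  ha := by decide +kernel
  hb := by decide +kernel
  hK := by decide +kernel
  v0 := by decide +kernel
  lox := by decide +kernel
  hix := by decide +kernel
  nx0 := by decide +kernel
  pair := by decide +kernel
  pair_r := by decide +kernel
  pair_l := by decide +kernel
  pair_l0 := by decide +kernel
  pair_l00 := by decide +kernel
  pair_p := by decide +kernel
  gen_lo := by decide +kernel
  gen_hi := by decide +kernel
  door := by decide +kernel
  hil := by decide +kernel
  hil0 := by decide +kernel
  hir := by decide +kernel
  whiA := by decide +kernel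
  wlo := by decide +kernel
  whi := by decide +kernel
  loc := by decide +kernel
  left := by decide +kernel
  right := by decide +kernel
  exc := by decide +kernel
  doorx := by decide +kernel
  len := by decide +kernel
  cov := by decide +kernel

/-- 13 further vertices, 8 floodlights -/
def E13 : Blk where
  a := 10
  b := 3
  K := 8
  vs := [(0, 0), (1000, -250), (6383, -1801), (6526, -12181), (6528, -20484), (6531, -3253),
    (7262, 1024), (138732, 96671), (824130, 594928), (1134023, 820166), (1300205, 940989),
    (16525, 7916), (9427, 2920), (3871, -650)]
  ws := [(6528, -19476), (6597, -2866), (79555, 53634), (150293, 105076), (13418, 5728), (8615,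
    2387), (809, -202), (1986, -534), (6442, -4269), (5890, -421), (1134572, 820568)]
  os := [[(3, true), (4, true), (5, false)], [(2, true), (5, true), (6, false)], [(6, true), (7,
    false), (11, false)], [(7, true), (8, false), (11, false)], [(6, true), (11, true), (12,
    false)], [(6, true), (12, true), (13, false)], [(0, true), (1, false), (13, true)], [(1,
    true), (2, false), (13, true)], [(2, true), (3, false), (5, false)], [(2, false), (6,
    false), (13, false)], [(8, true), (9, true), (10, true)]]

theorem ok13 : Ok E13 where
  ha := by decide +kernel
  hb := by decide +kernel
  hK := by decide +kernel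
  v0 := by decide +kernel
  lox := by decide +kernel
  hix := by decide +kernel
  nx0 := by decide +kernel
  pair := by decide +kernel
  pair_r := by decide +kernel
  pair_l := by decide +kernel
  pair_l0 := by decide +kernel
  pair_l00 := by decide +kernel
  pair_p := by decide +kernel
  gen_lo := by decide +kernel
  gen_hi := by decide +kernel
  door := by decide +kernel
  hil := by decide +kernel
  hil0 := by decide +kernel
  hir := by decide +kernel
  whiA := by decide +kernel
  wlo := by decide +kernel
  whi := by decide +kernel
  loc := by decide +kernel
  left := by decide +kernel
  right := by decide +kernel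
  exc := by decide +kernel
  doorx := by decide +kernel
  len := by decide +kernel
  cov := by decide +kernel

/-- 14 further vertices, 9 floodlights -/
def E14 : Blk where
  a := 10
  b := 4
  K := 9
  vs := [(0, 0), (114, -22), (354, -83), (1470, -922), (1508, -1941), (1509, -2814), (1510,
    -2274), (1516, -1567), (1629, 813), (2317, 2199), (2453, 2453), (2372, 2305), (2047,
    1790), (731, -36), (238, -39)]
  ws := [(89, -17), (175, -36), (388, -102), (269, -40), (1506, -1839), (1525, -1337), (1325,
    80), (1509, -2674), (1511, -2120), (2289, 2143), (2017, 1747), (2408, 2370), (2362,
    2288)]
  os := [[(0, true), (1, false), (14, true)], [(1, true), (2, false), (14, true)], [(2, true),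
    (3, false), (13, true)], [(2, false), (13, true), (14, false)], [(3, true), (4, false),
    (7, false)], [(3, true), (7, true), (8, false)], [(3, false), (8, false), (13, false)],
    [(4, true), (5, true), (6, false)], [(4, true), (6, true), (7, false)], [(8, true), (9,
    false), (12, false)], [(8, true), (12, true), (13, false)], [(9, true), (10, true), (11,
    false)], [(9, true), (11, true), (12, false)]]

theorem ok14 : Ok E14 where
  ha := by decide +kernel
  hb := by decide +kernel
  hK := by decide +kernel
  v0 := by decide +kernel
  lox := by decide +kernel
  hix := by decide +kernel
  nx0 := by decide +kernel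
  pair := by decide +kernel
  pair_r := by decide +kernel
  pair_l := by decide +kernel
  pair_l0 := by decide +kernel
  pair_l00 := by decide +kernel
  pair_p := by decide +kernel
  gen_lo := by decide +kernel
  gen_hi := by decide +kernel
  door := by decide +kernel
  hil := by decide +kernel
  hil0 := by decide +kernel
  hir := by decide +kernel
  whiA := by decide +kernel
  wlo := by decide +kernel
  whi := by decide +kernel
  loc := by decide +kernel
  left := by decide +kernel
  right := by decide +kernel
  exc := by decide +kernel
  doorx := by decide +kernel
  len := by decide +kernel
  cov := by decide +kernel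

/-- 15 further vertices, 9 floodlights -/
def E15 : Blk where
  a := 11
  b := 4
  K := 9
  vs := [(0, 0), (114, -22), (354, -83), (1470, -922), (1508, -1941), (1509, -2814), (1510,
    -2274), (1516, -1567), (1629, 813), (2317, 2199), (2453, 2453), (2456, 2460), (2372,
    2305), (2047, 1790), (731, -36), (238, -39)]
  ws := [(27, -5), (131, -26), (366, -92), (242, -39), (1506, -1885), (1521, -1452), (1338, 89),
    (1509, -2520), (1511, -2111), (2305, 2175), (2012, 1741), (2381, 2321), (2364, 2292)]
  os := [[(0, true), (1, false), (15, true)], [(1, true), (2, false), (15, true)], [(2, true),
    (3, false), (14, true)], [(2, false), (14, true), (15, false)], [(3, true), (4, false),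
    (7, false)], [(3, true), (7, true), (8, false)], [(3, false), (8, false), (14, false)],
    [(4, true), (5, true), (6, false)], [(4, true), (6, true), (7, false)], [(8, true), (9,
    false), (13, false)], [(8, true), (13, true), (14, false)], [(9, true), (10, true), (11,
    true), (12, false)], [(9, true), (12, true), (13, false)]]

theorem ok15 : Ok E15 where
  ha := by decide +kernel
  hb := by decide +kernel
  hK := by decide +kernel
  v0 := by decide +kernel
  lox := by decide +kernel
  hix := by decide +kernel
  nx0 := by decide +kernel
  pair := by decide +kernel
  pair_r := by decide +kernel
  pair_l := by decide +kernel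
  pair_l0 := by decide +kernel
  pair_l00 := by decide +kernel
  pair_p := by decide +kernel
  gen_lo := by decide +kernel
  gen_hi := by decide +kernel
  door := by decide +kernel
  hil := by decide +kernel
  hil0 := by decide +kernel
  hir := by decide +kernel
  whiA := by decide +kernel
  wlo := by decide +kernel
  whi := by decide +kernel
  loc := by decide +kernel
  left := by decide +kernel
  right := by decide +kernel
  exc := by decide +kernel
  doorx := by decide +kernel
  len := by decide +kernel
  cov := by decide +kernel

/-- 16 further vertices, 10 floodlights -/
def E16 : Blk where
  a := 12
  b := 4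
  K := 10
  vs := [(0, 0), (114, -22), (354, -83), (1470, -922), (1508, -1941), (1509, -2814), (1510,
    -2274), (1516, -1567), (1629, 813), (2317, 2199), (2453, 2453), (2484, 2509), (2502,
    2543), (2372, 2305), (2047, 1790), (731, -36), (238, -39)]
  ws := [(78, -15), (174, -36), (371, -92), (243, -39), (1505, -1848), (1518, -1517), (1361,
    106), (1509, -2784), (1511, -2151), (2301, 2167), (1982, 1699), (2402, 2358), (2369,
    2300), (2493, 2526)]
  os := [[(0, true), (1, false), (16, true)], [(1, true), (2, false), (16, true)], [(2, true),
    (3, false), (15, true)], [(2, false), (15, true), (16, false)], [(3, true), (4, false),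
    (7, false)], [(3, true), (7, true), (8, false)], [(3, false), (8, false), (15, false)],
    [(4, true), (5, true), (6, false)], [(4, true), (6, true), (7, false)], [(8, true), (9,
    false), (14, false)], [(8, true), (14, true), (15, false)], [(9, true), (10, false),
    (13, false)], [(9, true), (13, true), (14, false)], [(10, true), (11, true), (12,
    true)]]

theorem ok16 : Ok E16 where
  ha := by decide +kernel
  hb := by decide +kernel
  hK := by decide +kernel
  v0 := by decide +kernel
  lox := by decide +kernel
  hix := by decide +kernel
  nx0 := by decide +kernel
  pair := by decide +kernel
  pair_r := by decide +kernel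
  pair_l := by decide +kernel
  pair_l0 := by decide +kernel
  pair_l00 := by decide +kernel
  pair_p := by decide +kernel
  gen_lo := by decide +kernel
  gen_hi := by decide +kernel
  door := by decide +kernel
  hil := by decide +kernel
  hil0 := by decide +kernel
  hir := by decide +kernel
  whiA := by decide +kernel
  wlo := by decide +kernel
  whi := by decide +kernel
  loc := by decide +kernel
  left := by decide +kernel
  right := by decide +kernel
  exc := by decide +kernel
  doorx := by decide +kernel
  len := by decide +kernel
  cov := by decide +kernel

/-- 17 further vertices, 10 floodlights -/
def E17 : Blk where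
  a := 13
  b := 4
  K := 10
  vs := [(0, 0), (114, -22), (354, -83), (1470, -922), (1508, -1941), (1509, -2814), (1510,
    -2274), (1516, -1567), (1629, 813), (2317, 2199), (2453, 2453), (2484, 2509), (2502,
    2543), (2505, 2550), (2372, 2305), (2047, 1790), (731, -36), (238, -39)]
  ws := [(71, -13), (152, -31), (359, -86), (268, -39), (1506, -1875), (1517, -1541), (1373,
    150), (1509, -2692), (1511, -2096), (2312, 2189), (2028, 1763), (2438, 2425), (2364,
    2292), (2464, 2473)]
  os := [[(0, true), (1, false), (17, true)], [(1, true), (2, false), (17, true)], [(2, true),
    (3, false), (16, true)], [(2, false), (16, true), (17, false)], [(3, true), (4, false),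
    (7, false)], [(3, true), (7, true), (8, false)], [(3, false), (8, false), (16, false)],
    [(4, true), (5, true), (6, false)], [(4, true), (6, true), (7, false)], [(8, true), (9,
    false), (15, false)], [(8, true), (15, true), (16, false)], [(9, true), (10, false),
    (14, false)], [(9, true), (14, true), (15, false)], [(10, true), (11, true), (12, true),
    (13, true)]]

theorem ok17 : Ok E17 where
  ha := by decide +kernel
  hb := by decide +kernel
  hK := by decide +kernel
  v0 := by decide +kernel
  lox := by decide +kernel
  hix := by decide +kernel
  nx0 := by decide +kernel
  pair := by decide +kernel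
  pair_r := by decide +kernel
  pair_l := by decide +kernel
  pair_l0 := by decide +kernel
  pair_l00 := by decide +kernel
  pair_p := by decide +kernel
  gen_lo := by decide +kernel
  gen_hi := by decide +kernel
  door := by decide +kernel
  hil := by decide +kernel
  hil0 := by decide +kernel
  hir := by decide +kernel
  whiA := by decide +kernel
  wlo := by decide +kernel
  whi := by decide +kernel
  loc := by decide +kernel
  left := by decide +kernel
  right := by decide +kernel
  exc := by decide +kernel
  doorx := by decide +kernel
  len := by decide +kernel
  cov := by decide +kernel

end Pool.Agent.H84.Fl
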