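import Pool.Agent.H84.Fl.Count
import Pool.Agent.H84.Fl.DataA
import Pool.Agent.H84.Fl.DataB

/-!
# The lower bound `f n ≥ ⌊9 (n - 1) / 14⌋` for every `n ≥ 3`
-/

set_option autoImplicit false

namespace Pool.Agent.H84.Fl

open Set Pool.Agent.H54.Fl

/-- the lower bound given by an end block -/
theorem le_f_blk {E : Blk} (h : Ok E) (k : ℕ) :
    ((9 * k + E.K : ℕ) : ℕ∞) ≤ f (14 * k + (E.a + E.b) + 1) := by
  have e : 14 * k + (E.a + E.b) + 1 = 10 * k + E.a + (4 * k + E.b + 1) := by omega
  rw [e]
  refine le_sInf fun m hm => ?_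
  obtain ⟨S, N, hS, hI, hc⟩ := hm (vk E k) (isSimple h k)
  exact le_trans (by exact_mod_cast card_ge h hS hI) hc

/-- every polygon needs a floodlight -/
theorem one_le_f {n : ℕ} {v : ℕ → ℝ × ℝ} (hv : IsSimplePolygon n v) : (1 : ℕ∞) ≤ f n := by
  refine le_sInf fun m hm => ?_
  obtain ⟨S, N, hS, hI, hc⟩ := hm v hv
  have h3 := hv.three_le
  have h0 : v 0 ∈ region n v := by
    intro A _ hA hd
    refine absurd ?_ (Set.disjoint_left.1 hd hA)
    exact ⟨0, by omega, left_mem_segment ℝ _ _⟩
  obtain ⟨i, hi', -⟩ := hI _ h0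
  have h1 : 1 ≤ S.card := Finset.card_pos.2 ⟨i, hi'⟩
  exact le_trans (by exact_mod_cast h1) hc

theorem seg_inter {a b c : ℝ × ℝ} (h : orient a b c ≠ 0) :
    segment ℝ a b ∩ segment ℝ b c = {b} := by
  apply Set.Subset.antisymm
  · rintro z ⟨⟨s, t, hs, ht, hst, rfl⟩, ⟨s', t', hs', ht', hst', he⟩⟩
    rw [Set.mem_singleton_iff]
    have e1 : s' * b.1 + t' * c.1 = s * a.1 + t * b.1 := by
      have := congrArg Prod.fst he
      simpa only [Prod.fst_add, Prod.smul_fst, smul_eq_mul] using this
    have e2 : s' * b.2 + t' * c.2 = s * a.2 + t * b.2 := by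
      have := congrArg Prod.snd he
      simpa only [Prod.snd_add, Prod.smul_snd, smul_eq_mul] using this
    obtain rfl : t = 1 - s := by linarith
    obtain rfl : s' = 1 - t' := by linarith
    have e3 : s * orient a b c = 0 := by
      unfold orient
      linear_combination (c.2 - b.2) * e1 - (c.1 - b.1) * e2
    have e4 : s = 0 := (mul_eq_zero.1 e3).resolve_right h
    subst e4
    rw [zero_smul, zero_add, sub_zero, one_smul]
  · rintro z rfl
    exact ⟨right_mem_segment ℝ _ _, left_mem_segment ℝ _ _⟩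

/-- a triangle -/
def tri (i : ℕ) : ℝ × ℝ := if i = 0 then (0, 0) else if i = 1 then (1, 0) else (0, 1)

theorem tri_simple : IsSimplePolygon 3 tri where
  three_le := le_rfl
  adjacent := by
    intro i hi'
    interval_cases i
    · exact seg_inter (a := tri 0) (b := tri 1) (c := tri 2) (by norm_num [tri, orient])
    · exact seg_inter (a := tri 1) (b := tri 2) (c := tri 0) (by norm_num [tri, orient])
    · exact seg_inter (a := tri 2) (b := tri 0) (c := tri 1) (by norm_num [tri, orient])
  nonadjacent := by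
    intro i hi' j hj' h1 h2 h3
    omega
  genuine := by
    intro i hi'
    interval_cases i
    · norm_num [tri, orient]
    · norm_num [tri, orient]
    · norm_num [tri, orient]

/-- lower chain of a quadrilateral -/
def q1 (i : ℕ) : ℝ × ℝ := if i = 0 then (0, 0) else if i = 1 then (1, -1) else (2, 0)

/-- upper chain of a quadrilateral -/
def q2 (i : ℕ) : ℝ × ℝ := if i = 0 then (0, 0) else if i = 1 then (1, 1) else (2, 0)

theorem quad_mono : Mono 2 2 q1 q2 where
  hm := le_rfl
  hl := le_rfl
  px := by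
    intro i hi'
    interval_cases i
    · norm_num [q1]
    · norm_num [q1]
  qx := by
    intro i hi'
    interval_cases i
    · norm_num [q2]
    · norm_num [q2]
  h0 := rfl
  h1 := rfl
  lt := by
    intro x h0 h1
    have px : ∀ i < 2, (q1 i).1 < (q1 (i + 1)).1 := by
      intro i hi'
      interval_cases i
      · norm_num [q1]
      · norm_num [q1]
    have qx : ∀ i < 2, (q2 i).1 < (q2 (i + 1)).1 := by
      intro i hi'
      interval_cases i
      · norm_num [q2]
      · norm_num [q2]
    have e0 : (q1 0).1 = 0 := by norm_num [q1]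
    have e1 : (q1 1).1 = 1 := by norm_num [q1]
    have e2 : (q1 2).1 = 2 := by norm_num [q1]
    have f0 : (q2 0).1 = 0 := by norm_num [q2]
    have f1 : (q2 1).1 = 1 := by norm_num [q2]
    have f2 : (q2 2).1 = 2 := by norm_num [q2]
    rw [e0] at h0
    rw [e2] at h1
    rcases le_total x 1 with h2 | h2
    · rw [pl_eq px (i := 0) (by norm_num) (by rw [e0]; exact h0.le) (by rw [e1]; exact h2),
        pl_eq qx (i := 0) (by norm_num) (by rw [f0]; exact h0.le) (by rw [f1]; exact h2)]
      norm_num [q1, q2]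
      linarith
    · rw [pl_eq px (i := 1) (by norm_num) (by rw [e1]; exact h2) (by rw [e2]; exact h1.le),
        pl_eq qx (i := 1) (by norm_num) (by rw [f1]; exact h2) (by rw [f2]; exact h1.le)]
      norm_num [q1, q2]
      linarith

theorem quad_simple : IsSimplePolygon 4 (vert 2 2 q1 q2) := by
  refine quad_mono.isSimplePolygon ?_ ?_ ?_ ?_
  · intro i hi'
    obtain rfl : i = 0 := by omega
    norm_num [q1, orient]
  · intro i hi'
    obtain rfl : i = 0 := by omega
    norm_num [q2, orient]
  · norm_num [q1, q2, orient]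
  · norm_num [q1, q2, orient]

/-- **The lower bound for every `n`.** -/
theorem le_f (n : ℕ) (hn : 3 ≤ n) : ((9 * (n - 1) / 14 : ℕ) : ℕ∞) ≤ f n := by
  rcases Nat.lt_or_ge n 5 with h5 | h5
  · interval_cases n
    · exact one_le_f tri_simple
    · exact one_le_f quad_simple
  · obtain ⟨k, j, hj1, hj2, rfl⟩ : ∃ k j, 4 ≤ j ∧ j ≤ 17 ∧ n = 14 * k + j + 1 :=
      ⟨(n - 5) / 14, 4 + (n - 5) % 14, by omega, by omega, by omega⟩
    have key : ∀ E : Blk, Ok E → E.a + E.b = j → E.K = 9 * j / 14 →
        ((9 * (14 * k + j + 1 - 1) / 14 : ℕ) : ℕ∞) ≤ f (14 * k + j + 1) := by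
      intro E h e1 e2
      have h0 := le_f_blk h k
      rw [e1, e2] at h0
      rwa [show 9 * (14 * k + j + 1 - 1) / 14 = 9 * k + 9 * j / 14 by omega]
    interval_cases j
    · exact key E4 ok4 rfl rfl
    · exact key E5 ok5 rfl rfl
    · exact key E6 ok6 rfl rfl
    · exact key E7 ok7 rfl rfl
    · exact key E8 ok8 rfl rfl
    · exact key E9 ok9 rfl rfl
    · exact key E10 ok10 rfl rfl
    · exact key E11 ok11 rfl rfl
    · exact key E12 ok12 rfl rfl
    · exact key E13 ok13 rfl rfl
    · exact key E14 ok14 rfl rfl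
    · exact key E15 ok15 rfl rfl
    · exact key E16 ok16 rfl rfl
    · exact key E17 ok17 rfl rfl

end Pool.Agent.H84.Fl
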