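import Pool.Agent.H84.Fl.Chain

/-!
# The polygon with `k` periods and an end block: simplicity, witnesses, position of the vertices
-/

set_option autoImplicit false

namespace Pool.Agent.H84.Fl

open Set Pool.Agent.H54.Fl

variable {E : Blk} {k : ℕ}

/-- the vertices of the polygon in cyclic order -/
noncomputable def vk (E : Blk) (k : ℕ) : ℕ → ℝ × ℝ :=
  vert (10 * k + E.a) (4 * k + E.b + 1) (lo E k) (hi E k)

/-- the polygon -/
noncomputable def reg (E : Blk) (k : ℕ) : Set (ℝ × ℝ) :=
  region (10 * k + E.a + (4 * k + E.b + 1)) (vk E k)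

theorem hiNext (E : Blk) (k : ℕ) : hi E k (4 * k + 1) = T k (E.v (E.a + E.b)) := by
  have := hiE E k (r := E.a + E.b) le_rfl
  rwa [show 4 * k + (E.a + E.b + 1 - (E.a + E.b)) = 4 * k + 1 by omega] at this

theorem hiNext2 (h : Ok E) (k : ℕ) : hi E k (4 * k + 2) = T k (E.v (E.a + E.b - 1)) := by
  have hb := h.hb
  have := hiE E k (r := E.a + E.b - 1) (by omega)
  rwa [show 4 * k + (E.a + E.b + 1 - (E.a + E.b - 1)) = 4 * k + 2 by omega] at this

/-- the vertex of the upper chain to the left of the end block -/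
theorem hiPrev (E : Blk) (j : ℕ) : hi E (j + 1) (4 * (j + 1)) = T (j + 1) (un (V 11)) := by
  rw [T_un]
  exact hiA (k := j + 1) (j := j) (r := 11) E (Nat.lt_succ_self j) le_rfl (by norm_num)

theorem isSimple (h : Ok E) (k : ℕ) :
    IsSimplePolygon (10 * k + E.a + (4 * k + E.b + 1)) (vk E k) := by
  have ha := h.ha
  have hb := h.hb
  refine (mono h k).isSimplePolygon ?_ ?_ ?_ ?_
  · intro i hi'
    rcases Nat.lt_or_ge i (10 * k) with h1 | h1
    · obtain ⟨j, r, hr, rfl⟩ : ∃ j r, r < 10 ∧ i = 10 * j + r :=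
        ⟨i / 10, i % 10, Nat.mod_lt _ (by norm_num), by omega⟩
      have hj : j < k := by omega
      rw [add_assoc, add_assoc]
      rcases Nat.lt_or_ge r 9 with h9 | h9
      · rw [loA E hj hr.le, loA E hj (by omega), loA E hj (by omega)]
        by_cases h4 : r = 4
        · subst h4
          exact cast_ne chk_lo_orient4.ne'
        · exact cast_ne (chk_lo_orient r h9 h4).ne
      · obtain rfl : r = 9 := by omega
        rw [loA E hj hr.le, loA E hj (by omega), show 10 * j + (9 + 2) = 10 * (j + 1) + 1 by ring]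
        rcases Nat.lt_or_ge (j + 1) k with h5 | h5
        · rw [loA E h5 (by norm_num), T_succ]
          exact cast_ne chk_door_orient.ne
        · obtain rfl : k = j + 1 := by omega
          rw [loE h, T_succ]
          exact cast_ne h.door.ne
    · obtain ⟨r, rfl⟩ : ∃ r, i = 10 * k + r := ⟨i - 10 * k, by omega⟩
      rw [add_assoc, add_assoc, loE h, loE h, loE h]
      exact cast_ne (h.gen_lo r (by omega) (by omega))
  · intro i hi'
    rcases Nat.lt_or_ge (4 * k) i with h1 | h1
    · obtain ⟨s, hs1, hs2, rfl⟩ : ∃ s, E.a + 1 < s ∧ s < E.a + E.b + 1 ∧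
          i = 4 * k + (E.a + E.b + 1 - s) :=
        ⟨4 * k + E.a + E.b + 1 - i, by omega, by omega, by omega⟩
      rw [show 4 * k + (E.a + E.b + 1 - s) + 1 = 4 * k + (E.a + E.b + 1 - (s - 1)) by omega,
        show 4 * k + (E.a + E.b + 1 - s) + 2 = 4 * k + (E.a + E.b + 1 - (s - 2)) by omega,
        hiE E k (by omega), hiE E k (by omega), hiE E k (by omega)]
      exact cast_ne (h.gen_hi s hs2 hs1)
    · rcases Nat.eq_zero_or_pos i with h0 | h0
      · subst h0
        rcases Nat.eq_zero_or_pos k with hk | hk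
        · subst hk
          have e1 := hiNext E 0
          have e2 := hiNext2 h 0
          rw [mul_zero] at e1 e2
          rw [hi0, e1, e2]
          exact cast_ne h.hil0.ne'
        · rw [hi0, show 0 + 1 = 4 * 0 + (15 - 14) by norm_num,
            show 0 + 2 = 4 * 0 + (15 - 13) by norm_num, hiA E hk (by norm_num) (by norm_num),
            hiA E hk (by norm_num) (by norm_num)]
          exact cast_ne chk_hi_orient_l0.ne'
      · obtain ⟨j, s, hs, rfl⟩ : ∃ j s, s < 4 ∧ i = 4 * j + (s + 1) :=
          ⟨(i - 1) / 4, (i - 1) % 4, Nat.mod_lt _ (by norm_num), by omega⟩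
        have hj : j < k := by omega
        rcases Nat.lt_or_ge s 2 with h2 | h2
        · rw [show 4 * j + (s + 1) = 4 * j + (15 - (14 - s)) by omega,
            show 4 * j + (15 - (14 - s)) + 1 = 4 * j + (15 - (14 - s - 1)) by omega,
            show 4 * j + (15 - (14 - s)) + 2 = 4 * j + (15 - (14 - s - 2)) by omega,
            hiA E hj (by omega) (by omega), hiA E hj (by omega) (by omega),
            hiA E hj (by omega) (by omega)]
          exact cast_ne (chk_hi_orient (14 - s) (by omega) (by omega)).ne'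
        · rcases Nat.lt_or_ge s 3 with h3 | h3
          · obtain rfl : s = 2 := by omega
            rw [show 4 * j + (2 + 1) + 1 = 4 * j + (15 - 11) by omega,
              show 4 * j + (2 + 1) = 4 * j + (15 - 12) by omega,
              hiA E hj (by omega) (by omega), hiA E hj (by omega) (by omega)]
            rcases Nat.lt_or_ge (j + 1) k with h4 | h4
            · rw [show 4 * j + (15 - 12) + 2 = 4 * (j + 1) + (15 - 14) by omega,
                hiA E h4 (by omega) (by omega), T_succ]
              exact cast_ne chk_hi_orient_r.ne'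
            · obtain rfl : k = j + 1 := by omega
              rw [show 4 * j + (15 - 12) + 2 = 4 * (j + 1) + 1 by omega, hiNext, T_succ]
              exact cast_ne h.hir.ne'
          · obtain rfl : s = 3 := by omega
            rcases Nat.lt_or_ge (j + 1) k with h4 | h4
            · rw [show 4 * j + (3 + 1) + 1 = 4 * (j + 1) + (15 - 14) by omega,
                show 4 * j + (3 + 1) + 2 = 4 * (j + 1) + (15 - 13) by omega,
                show 4 * j + (3 + 1) = 4 * j + (15 - 11) by omega,
                hiA E h4 (by omega) (by omega), hiA E h4 (by omega) (by omega),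
                hiA E hj (by omega) (by omega), ← T_un j (V 11)]
              exact cast_ne chk_hi_orient_l.ne'
            · obtain rfl : k = j + 1 := by omega
              rw [show 4 * j + (3 + 1) + 1 = 4 * (j + 1) + 1 by omega,
                show 4 * j + (3 + 1) + 2 = 4 * (j + 1) + 2 by omega,
                show 4 * j + (3 + 1) = 4 * (j + 1) by omega, hiNext, hiNext2 h, hiPrev]
              exact cast_ne h.hil.ne'
  · rw [show 10 * k + E.a - 1 = 10 * k + (E.a - 1) by omega, loE h, loE h,
      show 4 * k + E.b + 1 - 1 = 4 * k + (E.a + E.b + 1 - (E.a + 1)) by omega,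
      hiE E k (by omega)]
    exact cast_ne h.pair_r.ne'
  · rw [lo0 h]
    have hswap : ∀ a b c : ℝ × ℝ, orient b a c ≠ 0 → orient a b c ≠ 0 := by
      intro a b c h1 h2
      apply h1
      unfold orient at h2 ⊢
      linarith
    apply hswap
    rcases Nat.eq_zero_or_pos k with hk | hk
    · subst hk
      have e1 := hiNext E 0
      have e2 := loE h 0 1
      rw [mul_zero, zero_add] at e1 e2
      rw [e1, e2]
      exact cast_ne h.pair_l00.ne
    · have e1 := hiA (k := k) (j := 0) (r := 14) E hk (by norm_num) (by norm_num)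
      have e2 := loA (k := k) (j := 0) (r := 1) E hk (by norm_num)
      rw [mul_zero, zero_add] at e1 e2
      rw [e2, show (1 : ℕ) = 15 - 14 by norm_num, e1]
      exact cast_ne (by decide)

theorem T_lo_le (h : Ok E) (k : ℕ) {i : ℕ} (hi' : i ≤ 10 * k + E.a) :
    (lo E k 0).1 ≤ (lo E k i).1 :=
  chain_le (mono h k).px (Nat.zero_le _) hi'

theorem T_lo_ge (h : Ok E) (k : ℕ) {i : ℕ} (hi' : i ≤ 10 * k + E.a) :
    (lo E k i).1 ≤ (lo E k (10 * k + E.a)).1 :=
  chain_le (mono h k).px hi' le_rfl

/-- the witnesses of the periods -/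
theorem wit_mem (h : Ok E) {j w : ℕ} (hj : j < k) (hw : w < 13) : T j (W w) ∈ reg E k := by
  unfold reg vk
  rw [(mono h k).mem_region]
  have m := mono h k
  have hb := h.hb
  -- lower chain
  obtain ⟨r, hr, a1, a2, a3⟩ := chk_w_lo w hw
  have b1 : (T j (V r)).1 ≤ (T j (W w)).1 := T_le a1
  have b2 : (T j (W w)).1 ≤ (T j (V (r + 1))).1 := T_le a2
  rw [← loA E hj hr.le] at b1
  rw [← loA E hj (show r + 1 ≤ 10 by omega), ← add_assoc] at b2
  have hlow : pl (10 * k + E.a) (lo E k) (T j (W w)).1 ≤ (T j (W w)).2 := by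
    rw [pl_le_iff m.px (i := 10 * j + r) (by omega) b1 b2, add_assoc, loA E hj hr.le,
      loA E hj (by omega), orient_T]
    exact_mod_cast a3
  have c1 : (lo E k 0).1 ≤ (T j (W w)).1 := (T_lo_le h k (by omega)).trans b1
  have c2 : (T j (W w)).1 ≤ (lo E k (10 * k + E.a)).1 := b2.trans (T_lo_ge h k (by omega))
  refine ⟨⟨c1, c2⟩, hlow, ?_⟩
  rcases chk_w_hi w hw with ⟨s, hs1, hs2, d1, d2, d3⟩ | ⟨d1, d2, d3, d4⟩ | ⟨d1, d2, d3, d4⟩
  · have e1 : hi E k (4 * j + (15 - s)) = T j (V s) := hiA E hj (by omega) (by omega)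
    have e2 : hi E k (4 * j + (15 - s) + 1) = T j (V (s - 1)) := by
      rw [show 4 * j + (15 - s) + 1 = 4 * j + (15 - (s - 1)) by omega]
      exact hiA E hj (by omega) (by omega)
    rw [le_pl_iff m.qx (i := 4 * j + (15 - s)) (by omega) (by rw [e1]; exact T_le d1)
      (by rw [e2]; exact T_le d2), e1, e2, orient_T]
    exact_mod_cast d3
  · rcases Nat.eq_zero_or_pos j with h0 | h0
    · subst h0
      have e1 : hi E k 0 = T 0 (V 0) := hi0 E k
      have e2 : hi E k (0 + 1) = T 0 (V 14) := hiA (k := k) (j := 0) (r := 14) E hj (by norm_num)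
        (by norm_num)
      rw [le_pl_iff m.qx (i := 0) (by omega) (by rw [e1]; exact T_le d1)
        (by rw [e2]; exact T_le d2), e1, e2, orient_T]
      exact_mod_cast d3
    · obtain ⟨i, rfl⟩ : ∃ i, j = i + 1 := ⟨j - 1, by omega⟩
      have e1 : hi E k (4 * i + (15 - 11)) = T (i + 1) (un (V 11)) := by
        rw [T_un]
        exact hiA E (by omega) (by norm_num) (by norm_num)
      have e2 : hi E k (4 * i + (15 - 11) + 1) = T (i + 1) (V 14) := by
        rw [show 4 * i + (15 - 11) + 1 = 4 * (i + 1) + (15 - 14) by omega]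
        exact hiA E hj (by norm_num) (by norm_num)
      rw [le_pl_iff m.qx (i := 4 * i + (15 - 11)) (by omega) (by
        rw [e1]
        refine T_le (le_trans ?_ d1)
        decide) (by rw [e2]; exact T_le d2), e1, e2, orient_T]
      exact_mod_cast d4
  · rcases Nat.lt_or_ge (j + 1) k with h0 | h0
    · have e1 : hi E k (4 * j + (15 - 11)) = T j (V 11) := hiA E hj (by norm_num) (by norm_num)
      have e2 : hi E k (4 * j + (15 - 11) + 1) = T j (sh (V 14)) := by
        rw [show 4 * j + (15 - 11) + 1 = 4 * (j + 1) + (15 - 14) by omega, ← T_succ]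
        exact hiA E h0 (by norm_num) (by norm_num)
      rw [le_pl_iff m.qx (i := 4 * j + (15 - 11)) (by omega) (by rw [e1]; exact T_le d1) (by
        rw [e2]
        exact T_le (d2.trans (by decide))), e1, e2, orient_T]
      exact_mod_cast d4
    · obtain rfl : k = j + 1 := by omega
      have e1 : hi E (j + 1) (4 * j + (15 - 11)) = T j (V 11) :=
        hiA E hj (by norm_num) (by norm_num)
      have e2 : hi E (j + 1) (4 * j + (15 - 11) + 1) = T j (sh (E.v (E.a + E.b))) := by
        rw [show 4 * j + (15 - 11) + 1 = 4 * (j + 1) + 1 by omega, hiNext, T_succ]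
      have hnx := h.nx0
      have e3 : (W w).1 ≤ (sh (E.v (E.a + E.b))).1 := by
        have e4 : (sh (E.v (E.a + E.b))).1 = (E.v (E.a + E.b)).1 + 2453 := rfl
        omega
      rw [le_pl_iff m.qx (i := 4 * j + (15 - 11)) (by omega) (by rw [e1]; exact T_le d1) (by
        rw [e2]
        exact T_le e3), e1, e2, orient_T]
      exact_mod_cast h.whiA w hw d1 d2

/-- the witnesses of the end block -/
theorem wit_memE (h : Ok E) (k : ℕ) {i : ℕ} (hi' : i < E.m) : T k (E.w i) ∈ reg E k := by
  unfold reg vk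
  rw [(mono h k).mem_region]
  have m := mono h k
  have hb := h.hb
  obtain ⟨r, hr, a1, a2, a3⟩ := h.wlo i hi'
  have b1 : (T k (E.v r)).1 ≤ (T k (E.w i)).1 := T_le a1
  have b2 : (T k (E.w i)).1 ≤ (T k (E.v (r + 1))).1 := T_le a2
  rw [← loE h k r] at b1
  rw [← loE h k (r + 1), ← add_assoc] at b2
  have hlow : pl (10 * k + E.a) (lo E k) (T k (E.w i)).1 ≤ (T k (E.w i)).2 := by
    rw [pl_le_iff m.px (i := 10 * k + r) (by omega) b1 b2, add_assoc, loE h k r,
      loE h k (r + 1), orient_T]
    exact_mod_cast a3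
  have c1 : (lo E k 0).1 ≤ (T k (E.w i)).1 := (T_lo_le h k (by omega)).trans b1
  have c2 : (T k (E.w i)).1 ≤ (lo E k (10 * k + E.a)).1 := b2.trans (T_lo_ge h k (by omega))
  refine ⟨⟨c1, c2⟩, hlow, ?_⟩
  rcases h.whi i hi' with ⟨s, hs1, hs2, d1, d2, d3⟩ | ⟨d1, d2, d3, d4⟩
  · have e1 : hi E k (4 * k + (E.a + E.b + 1 - s)) = T k (E.v s) := hiE E k (by omega)
    have e2 : hi E k (4 * k + (E.a + E.b + 1 - s) + 1) = T k (E.v (s - 1)) := by
      rw [show 4 * k + (E.a + E.b + 1 - s) + 1 = 4 * k + (E.a + E.b + 1 - (s - 1)) by omega]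
      exact hiE E k (by omega)
    rw [le_pl_iff m.qx (i := 4 * k + (E.a + E.b + 1 - s)) (by omega) (by rw [e1]; exact T_le d1)
      (by rw [e2]; exact T_le d2), e1, e2, orient_T]
    exact_mod_cast d3
  · have e2 := hiNext E k
    rcases Nat.eq_zero_or_pos k with h0 | h0
    · subst h0
      have e1 : hi E 0 (4 * 0) = T 0 (V 0) := hi0 E 0
      rw [le_pl_iff m.qx (i := 4 * 0) (by omega) (by rw [e1]; exact T_le d1)
        (by rw [e2]; exact T_le d2), e1, e2, orient_T]
      exact_mod_cast d3
    · obtain ⟨j, rfl⟩ : ∃ j, k = j + 1 := ⟨k - 1, by omega⟩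
      have e1 := hiPrev E j
      have e5 : (un (V 11)).1 ≤ (E.w i).1 := by
        have e6 : (un (V 11)).1 = -81 := rfl
        omega
      rw [le_pl_iff m.qx (i := 4 * (j + 1)) (by omega) (by rw [e1]; exact T_le e5)
        (by rw [e2]; exact T_le d2), e1, e2, orient_T]
      exact_mod_cast d4

/-- the index of the `r`-th vertex of the `j`-th period -/
def idx (E : Blk) (k j r : ℕ) : ℕ :=
  if r ≤ 10 then 10 * j + r else 14 * k + E.a + E.b + 1 - (4 * j + (15 - r))

theorem vk_idx (E : Blk) {k j r : ℕ} (hj : j < k) (hr : r < 15) :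
    vk E k (idx E k j r) = T j (V r) := by
  unfold vk idx vert
  split_ifs with h1 h2 h2
  · exact loA E hj h1
  · omega
  · omega
  · rw [show 10 * k + E.a + (4 * k + E.b + 1) - (14 * k + E.a + E.b + 1 - (4 * j + (15 - r))) =
      4 * j + (15 - r) by omega]
    exact hiA E hj (by omega) (by omega)

theorem vk_E (h : Ok E) (k : ℕ) {r : ℕ} (hr : r < E.a + E.b + 1) :
    vk E k (10 * k + r) = T k (E.v r) := by
  unfold vk vert
  split_ifs with h1
  · exact loE h k r
  · rw [show 10 * k + E.a + (4 * k + E.b + 1) - (10 * k + r) = 4 * k + (E.a + E.b + 1 - r)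
      by omega]
    exact hiE E k (by omega)

theorem v_nonneg (h : Ok E) {r : ℕ} (hr : r < E.a + E.b + 1) : 0 ≤ (E.v r).1 := by
  rcases Nat.lt_or_ge E.a r with h1 | h1
  · exact h.nx0.le.trans (v_hi_pos h h1.le hr)
  · exact v_lo_nonneg h h1

/-- an upper vertex of a period -/
theorem upper_idx {i : ℕ} (h1 : 10 * k + E.a + E.b < i)
    (hi' : i < 10 * k + E.a + (4 * k + E.b + 1)) :
    ∃ j s, j < k ∧ s < 4 ∧ i = idx E k j (14 - s) ∧ vk E k i = T j (V (14 - s)) := by
  obtain ⟨j', s, hs, hi2⟩ : ∃ j' s, s < 4 ∧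
      14 * k + E.a + E.b + 1 - i = 4 * j' + (s + 1) :=
    ⟨(14 * k + E.a + E.b + 1 - i - 1) / 4, (14 * k + E.a + E.b + 1 - i - 1) % 4,
      Nat.mod_lt _ (by norm_num), by omega⟩
  have hj' : j' < k := by omega
  have hi3 : i = idx E k j' (14 - s) := by
    unfold idx
    rw [if_neg (by omega)]
    omega
  refine ⟨j', s, hj', hs, hi3, ?_⟩
  rw [hi3]
  exact vk_idx E hj' (by omega)

theorem upper_le {j j' s : ℕ} (hs : s < 4) (h1 : j' ≤ j) :
    (T j' (V (14 - s))).1 ≤ (T j (V 11)).1 := by
  have hx := V_x.2 (14 - s) (by omega) (by omega)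
  rw [T_fst, T_fst]
  have e1 : ((V (14 - s)).1 : ℝ) ≤ 2372 := by exact_mod_cast hx.2
  have e2 : ((V 11).1 : ℝ) = 2372 := by norm_num [V]
  have e3 : (j' : ℝ) ≤ j := by exact_mod_cast h1
  rw [e2]
  linarith

/-- position of a vertex relative to the `j`-th period -/
theorem decode (h : Ok E) {j i : ℕ} (hj : j < k)
    (hi' : i < 10 * k + E.a + (4 * k + E.b + 1)) :
    (∃ r < 15, i = idx E k j r) ∨
    (∃ j', j = j' + 1 ∧ (vk E k i).1 ≤ (T j' (V 11)).1) ∨
    (j + 1 < k ∧ (vk E k i = T j (sh (V 1)) ∨ (T j (sh (V 14))).1 ≤ (vk E k i).1)) ∨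
    (k = j + 1 ∧ ∃ r, 0 < r ∧ r < E.a + E.b + 1 ∧ i = 10 * k + r) := by
  have ha := h.ha
  have hb := h.hb
  have m := mono h k
  have e14 : ((V 14).1 : ℝ) = 238 := by norm_num [V]
  rcases Nat.lt_or_ge (10 * k + E.a + E.b) i with h1 | h1
  · -- upper chain of a period
    obtain ⟨j', s, hj', hs, hi3, hv⟩ := upper_idx h1 hi'
    rcases Nat.lt_trichotomy j' j with h1 | h1 | h1
    · right; left
      refine ⟨j - 1, by omega, ?_⟩
      rw [hv]
      exact upper_le hs (by omega)
    · left
      subst h1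
      exact ⟨14 - s, by omega, hi3⟩
    · right; right; left
      refine ⟨by omega, Or.inr ?_⟩
      have hx := V_x.2 (14 - s) (by omega) (by omega)
      rw [hv, ← T_succ, T_fst, T_fst]
      have e1 : (238 : ℝ) ≤ (V (14 - s)).1 := by exact_mod_cast hx.1
      have e3 : ((j + 1 : ℕ) : ℝ) ≤ j' := by exact_mod_cast h1
      rw [e14]
      linarith
  · rcases Nat.lt_or_ge (10 * k) i with h2 | h2
    · -- a vertex of the end block
      obtain ⟨r, rfl⟩ : ∃ r, i = 10 * k + r := ⟨i - 10 * k, by omega⟩
      rcases Nat.lt_or_ge (j + 1) k with h3 | h3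
      · right; right; left
        refine ⟨h3, Or.inr ?_⟩
        have h4 : (0 : ℝ) ≤ ((E.v r).1 : ℝ) := by
          exact_mod_cast v_nonneg h (r := r) (by omega)
        rw [vk_E h k (by omega), ← T_succ, T_fst, T_fst, e14]
        have e3 : ((j + 1 : ℕ) : ℝ) + 1 ≤ k := by exact_mod_cast h3
        linarith
      · right; right; right
        exact ⟨by omega, r, by omega, by omega, rfl⟩
    · have hv : vk E k i = lo E k i := vert_lo (by omega)
      rcases Nat.lt_or_ge i (10 * j) with h3 | h3
      · right; left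
        refine ⟨j - 1, by omega, ?_⟩
        rw [hv]
        refine (chain_le (m := 10 * k + E.a) m.px (i := i) (j := 10 * (j - 1) + 9) (by omega)
          (by omega)).trans ?_
        rw [loA E (by omega) (by norm_num)]
        exact T_le (by decide)
      · rcases Nat.lt_or_ge (10 * j + 10) i with h4 | h4
        · right; right; left
          refine ⟨by omega, ?_⟩
          rcases Nat.lt_or_ge (10 * j + 11) i with h5 | h5
          · right
            rw [hv]
            refine le_trans ?_ (chain_le (m := 10 * k + E.a) m.px (i := 10 * (j + 1) + 2)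
              (j := i) (by omega) (by omega))
            rw [loA E (by omega) (by norm_num), T_succ]
            exact T_le (by decide)
          · left
            obtain rfl : i = 10 * (j + 1) + 1 := by omega
            rw [hv, loA E (by omega) (by norm_num), T_succ]
        · left
          refine ⟨i - 10 * j, by omega, ?_⟩
          unfold idx
          rw [if_pos (by omega)]
          omega

/-- position of a vertex relative to the end block -/
theorem decodeE (h : Ok E) {i : ℕ} (hi' : i < 10 * k + E.a + (4 * k + E.b + 1)) :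
    (∃ r < E.a + E.b + 1, i = 10 * k + r) ∨
    (∃ j, k = j + 1 ∧ (vk E k i).1 ≤ (T j (V 11)).1) := by
  have ha := h.ha
  have m := mono h k
  rcases Nat.lt_or_ge (10 * k + E.a + E.b) i with h1 | h1
  · right
    obtain ⟨j', s, hj', hs, hi3, hv⟩ := upper_idx h1 hi'
    refine ⟨k - 1, by omega, ?_⟩
    rw [hv]
    exact upper_le hs (by omega)
  · rcases Nat.lt_or_ge i (10 * k) with h2 | h2
    · right
      refine ⟨k - 1, by omega, ?_⟩
      have hv : vk E k i = lo E k i := vert_lo (by omega)
      rw [hv]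
      refine (chain_le (m := 10 * k + E.a) m.px (i := i) (j := 10 * (k - 1) + 9) (by omega)
        (by omega)).trans ?_
      rw [loA E (by omega) (by norm_num)]
      exact T_le (by decide)
    · left
      exact ⟨i - 10 * k, by omega, by omega⟩

end Pool.Agent.H84.Fl
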