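import Pool.Agent.H84.Fl.Vis

/-!
# Which vertices can illuminate the witnesses
-/

set_option autoImplicit false

namespace Pool.Agent.H84.Fl

open Set Pool.Agent.H54.Fl

variable {E : Blk} {k : ℕ}

/-- a segment in the region passes above the lower vertices of a period -/
theorem seg_lo (h : Ok E) {j : ℕ} (hj : j < k) {a b : ℝ × ℝ} (hab : a.1 < b.1)
    (hs : segment ℝ a b ⊆ reg E k) {s : ℕ} (h0 : s ≤ 10)
    (h1 : a.1 ≤ (T j (V s)).1) (h2 : (T j (V s)).1 ≤ b.1) : orient a b (T j (V s)) ≤ 0 := by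
  rw [← loA E hj h0] at h1 h2 ⊢
  exact (mono h k).orient_lo hab hs (by omega) h1 h2

/-- a segment in the region passes below the upper vertices of a period -/
theorem seg_hi (h : Ok E) {j : ℕ} (hj : j < k) {a b : ℝ × ℝ} (hab : a.1 < b.1)
    (hs : segment ℝ a b ⊆ reg E k) {s : ℕ} (h0 : 11 ≤ s) (h0' : s ≤ 14)
    (h1 : a.1 ≤ (T j (V s)).1) (h2 : (T j (V s)).1 ≤ b.1) : 0 ≤ orient a b (T j (V s)) := by
  rw [← hiA E hj h0 h0'] at h1 h2 ⊢
  exact (mono h k).orient_hi hab hs (by omega) h1 h2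

/-- a segment in the region passes above the lower vertices of the end block -/
theorem seg_loE (h : Ok E) {a b : ℝ × ℝ} (hab : a.1 < b.1)
    (hs : segment ℝ a b ⊆ reg E k) {s : ℕ} (h0 : s ≤ E.a)
    (h1 : a.1 ≤ (T k (E.v s)).1) (h2 : (T k (E.v s)).1 ≤ b.1) :
    orient a b (T k (E.v s)) ≤ 0 := by
  rw [← loE h k s] at h1 h2 ⊢
  exact (mono h k).orient_lo hab hs (by omega) h1 h2

/-- a segment in the region passes below the upper vertices of the end block -/
theorem seg_hiE (h : Ok E) {a b : ℝ × ℝ} (hab : a.1 < b.1)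
    (hs : segment ℝ a b ⊆ reg E k) {s : ℕ} (h0 : E.a ≤ s) (h0' : s < E.a + E.b + 1)
    (h1 : a.1 ≤ (T k (E.v s)).1) (h2 : (T k (E.v s)).1 ≤ b.1) :
    0 ≤ orient a b (T k (E.v s)) := by
  rw [← hiE E k (r := s) (by omega)] at h1 h2 ⊢
  exact (mono h k).orient_hi hab hs (by omega) h1 h2

theorem oneg {j : ℕ} {a b c : ℤ × ℤ} (h : oz a b c < 0) (h' : 0 ≤ orient (T j a) (T j b) (T j c)) :
    False := by
  rw [orient_T] at h'
  have h6 : ((oz a b c : ℤ) : ℝ) < 0 := by exact_mod_cast h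
  linarith

theorem opos {j : ℕ} {a b c : ℤ × ℤ} (h : 0 < oz a b c) (h' : orient (T j a) (T j b) (T j c) ≤ 0) :
    False := by
  rw [orient_T] at h'
  have h6 : (0 : ℝ) < ((oz a b c : ℤ) : ℝ) := by exact_mod_cast h
  linarith

theorem not_vis_of_blk (h : Ok E) {j : ℕ} (hj : j < k) {a : ℤ × ℤ} {w s : ℕ} (hs15 : s < 15)
    (hb : blk a (W w) (V s) (decide (10 < s)) = true) :
    ¬ segment ℝ (T j a) (T j (W w)) ⊆ reg E k := by
  intro hs
  unfold blk at hb
  simp only [Bool.or_eq_true, Bool.and_eq_true, decide_eq_true_eq] at hb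
  rcases hb with ⟨⟨⟨h1, h2⟩, h3⟩, h4⟩ | ⟨⟨⟨h1, h2⟩, h3⟩, h4⟩
  · rcases Nat.lt_or_ge 10 s with h5 | h5
    · rw [if_pos h5, decide_eq_true_eq] at h4
      exact oneg h4 (seg_hi h hj (T_lt h1) hs h5 (by omega) (T_le h2) (T_le h3))
    · rw [if_neg (by omega), decide_eq_true_eq] at h4
      exact opos h4 (seg_lo h hj (T_lt h1) hs h5 (T_le h2) (T_le h3))
  · rw [segment_symm] at hs
    rcases Nat.lt_or_ge 10 s with h5 | h5
    · rw [if_pos h5, decide_eq_true_eq] at h4
      exact oneg h4 (seg_hi h hj (T_lt h1) hs h5 (by omega) (T_le h2) (T_le h3))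
    · rw [if_neg (by omega), decide_eq_true_eq] at h4
      exact opos h4 (seg_lo h hj (T_lt h1) hs h5 (T_le h2) (T_le h3))

theorem not_vis_of_blkE (h : Ok E) {a c : ℤ × ℤ} {s : ℕ} (hs' : s < E.a + E.b + 1)
    (hb : blk a c (E.v s) (decide (E.a < s)) = true) :
    ¬ segment ℝ (T k a) (T k c) ⊆ reg E k := by
  intro hs
  unfold blk at hb
  simp only [Bool.or_eq_true, Bool.and_eq_true, decide_eq_true_eq] at hb
  rcases hb with ⟨⟨⟨h1, h2⟩, h3⟩, h4⟩ | ⟨⟨⟨h1, h2⟩, h3⟩, h4⟩
  · rcases Nat.lt_or_ge E.a s with h5 | h5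
    · rw [if_pos h5, decide_eq_true_eq] at h4
      exact oneg h4 (seg_hiE h (T_lt h1) hs h5.le hs' (T_le h2) (T_le h3))
    · rw [if_neg (by omega), decide_eq_true_eq] at h4
      exact opos h4 (seg_loE h (T_lt h1) hs h5 (T_le h2) (T_le h3))
  · rw [segment_symm] at hs
    rcases Nat.lt_or_ge E.a s with h5 | h5
    · rw [if_pos h5, decide_eq_true_eq] at h4
      exact oneg h4 (seg_hiE h (T_lt h1) hs h5.le hs' (T_le h2) (T_le h3))
    · rw [if_neg (by omega), decide_eq_true_eq] at h4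
      exact opos h4 (seg_loE h (T_lt h1) hs h5 (T_le h2) (T_le h3))

/-- vertices far to the left do not see the witnesses of a period -/
theorem not_vis_left (h : Ok E) {j : ℕ} (hj : j < k) {v : ℝ × ℝ} {w j' : ℕ} (hw : w < 13)
    (hjj : j = j' + 1) (hv : v.1 ≤ (T j' (V 11)).1) :
    ¬ segment ℝ v (T j (W w)) ⊆ reg E k := by
  intro hs
  obtain ⟨i, hi', h1, s, hs1, hs2, h2, h3⟩ := chk_left w hw
  have hVB : ∀ s < 15, 10 ≤ s → (un (V 11)).1 ≤ (Bl s).1 := by decide
  have hVL : ∀ i < 11, (un (V 11)).1 < (V i).1 := by decide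
  rw [← T_un j' (V 11), ← hjj] at hv
  have c1 : v.1 < (T j (V i)).1 := hv.trans_lt (T_lt (hVL i hi'))
  have c2 : v.1 ≤ (T j (Bl s)).1 := hv.trans (T_le (hVB s hs1 hs2))
  have c3 := T_lt (j := j) h1
  have c4 := T_lt (j := j) h2
  have hvw : v.1 < (T j (W w)).1 := c1.trans c3
  have a1 : orient v (T j (W w)) (T j (V i)) ≤ 0 :=
    seg_lo h hj hvw hs (by omega) c1.le c3.le
  have a2 : 0 ≤ orient v (T j (W w)) (T j (Bl s)) := by
    by_cases h10 : s = 10
    · have e : T j (Bl s) = hi E k (4 * j' + (15 - 11)) := by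
        rw [hiA E (by omega) (by norm_num) (by norm_num), h10, hjj, ← T_un j' (V 11)]
        rfl
      rw [e] at c2 c4 ⊢
      exact (mono h k).orient_hi hvw hs (by omega) c2 c4.le
    · have e : Bl s = V s := if_neg h10
      rw [e] at c2 c4 ⊢
      exact seg_hi h hj hvw hs (by omega) (by omega) c2 c4.le
  refine contra_left hvw c3 c4 a1 a2 ?_
  rw [orient_T]
  exact_mod_cast h3

/-- vertices far to the right do not see the witnesses of a period -/
theorem not_vis_right (h : Ok E) {j : ℕ} (hj : j < k) {v : ℝ × ℝ} {w : ℕ} (hw : w < 13)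
    (hjj : j + 1 < k) (hv : (T j (sh (V 14))).1 ≤ v.1) :
    ¬ segment ℝ v (T j (W w)) ⊆ reg E k := by
  intro hs
  rw [segment_symm] at hs
  obtain ⟨i, hi', h1, s, hs1, hs2, h2, h3⟩ := chk_right w hw
  have hVB : ∀ s < 15, 10 ≤ s → (Br s).1 ≤ (sh (V 14)).1 := by decide
  have hVL : ∀ i < 11, (V i).1 < (sh (V 14)).1 := by decide
  have c1 : (T j (V i)).1 < v.1 := (T_lt (hVL i hi')).trans_le hv
  have c2 : (T j (Br s)).1 ≤ v.1 := (T_le (hVB s hs1 hs2)).trans hv
  have c3 := T_lt (j := j) h1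
  have c4 := T_lt (j := j) h2
  have hvw : (T j (W w)).1 < v.1 := c3.trans c1
  have a1 : orient (T j (W w)) v (T j (V i)) ≤ 0 :=
    seg_lo h hj hvw hs (by omega) c3.le c1.le
  have a2 : 0 ≤ orient (T j (W w)) v (T j (Br s)) := by
    by_cases h10 : s = 10
    · have e : T j (Br s) = hi E k (4 * (j + 1) + (15 - 14)) := by
        rw [hiA E hjj (by norm_num) (by norm_num), h10, T_succ]
        rfl
      rw [e] at c2 c4 ⊢
      exact (mono h k).orient_hi hvw hs (by omega) c4.le c2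
    · have e : Br s = V s := if_neg h10
      rw [e] at c2 c4 ⊢
      exact seg_hi h hj hvw hs (by omega) (by omega) c4.le c2
  refine contra_right hvw c3 c4 a1 a2 ?_
  rw [orient_T]
  exact_mod_cast h3

/-- the vertices of the end block do not see the witnesses of the last period -/
theorem not_vis_E (h : Ok E) {j : ℕ} (hk : k = j + 1) {w r : ℕ} (hw : w < 13)
    (hr : r < E.a + E.b + 1) (hr0 : 0 < r) :
    ¬ segment ℝ (T k (E.v r)) (T j (W w)) ⊆ reg E k := by
  have hb := h.hb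
  have hj : j < k := by omega
  have eT : ∀ p : ℤ × ℤ, T k p = T j (sh p) := by
    intro p
    rw [hk, T_succ]
  rw [eT]
  rcases h.right w hw r hr hr0 with ⟨s, hs1, hs2⟩ | ⟨i, hi', h1, h1', s, hs1, hs2, h2, h2', h3⟩
  · exact not_vis_of_blk h hj hs1 hs2
  · intro hs
    rw [segment_symm] at hs
    have c1 : (T j (V i)).1 ≤ (T j (sh (E.v r))).1 := T_le h1'
    have c2 : (T j (E.br s)).1 ≤ (T j (sh (E.v r))).1 := T_le h2'
    have c3 := T_lt (j := j) h1
    have c4 := T_lt (j := j) h2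
    have hvw : (T j (W w)).1 < (T j (sh (E.v r))).1 := c3.trans_le c1
    have a1 : orient (T j (W w)) (T j (sh (E.v r))) (T j (V i)) ≤ 0 :=
      seg_lo h hj hvw hs (by omega) c3.le c1
    have a2 : 0 ≤ orient (T j (W w)) (T j (sh (E.v r))) (T j (E.br s)) := by
      by_cases h10 : s = 10
      · have e : T j (E.br s) = T k (E.v (E.a + E.b)) := by
          rw [eT, h10]
          rfl
        rw [e] at c2 c4 ⊢
        exact seg_hiE h hvw hs (by omega) (by omega) c4.le c2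
      · have e : E.br s = V s := if_neg h10
        rw [e] at c2 c4 ⊢
        exact seg_hi h hj hvw hs (by omega) (by omega) c4.le c2
    refine contra_right hvw c3 c4 a1 a2 ?_
    rw [orient_T]
    exact_mod_cast h3

/-- vertices far to the left do not see the witnesses of the end block -/
theorem not_vis_leftE (h : Ok E) {j : ℕ} (hk : k = j + 1) {v : ℝ × ℝ} {i : ℕ} (hi' : i < E.m)
    (hv : v.1 ≤ (T j (V 11)).1) : ¬ segment ℝ v (T k (E.w i)) ⊆ reg E k := by
  intro hs
  have hb := h.hb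
  obtain ⟨r, hr, h1, s, hs1, hs2, h2, h3⟩ := h.left i hi'
  have e81 : (un (V 11)).1 = -81 := rfl
  have hVB : (un (V 11)).1 ≤ (E.bl s).1 := by
    unfold Blk.bl
    split_ifs with h4
    · exact le_rfl
    · have := v_nonneg h hs1
      omega
  have hVL : (un (V 11)).1 < (E.v r).1 := by
    have := v_nonneg h (r := r) (by omega)
    omega
  rw [← T_un j (V 11), ← hk] at hv
  have c1 : v.1 < (T k (E.v r)).1 := hv.trans_lt (T_lt hVL)
  have c2 : v.1 ≤ (T k (E.bl s)).1 := hv.trans (T_le hVB)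
  have c3 := T_lt (j := k) h1
  have c4 := T_lt (j := k) h2
  have hvw : v.1 < (T k (E.w i)).1 := c1.trans c3
  have a1 : orient v (T k (E.w i)) (T k (E.v r)) ≤ 0 :=
    seg_loE h hvw hs (by omega) c1.le c3.le
  have a2 : 0 ≤ orient v (T k (E.w i)) (T k (E.bl s)) := by
    by_cases h10 : s = E.a
    · have e : T k (E.bl s) = hi E k (4 * k) := by
        rw [hk, hiPrev]
        congr 1
        exact if_pos h10
      rw [e] at c2 c4 ⊢
      exact (mono h k).orient_hi hvw hs (by omega) c2 c4.le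
    · have e : E.bl s = E.v s := if_neg h10
      rw [e] at c2 c4 ⊢
      exact seg_hiE h hvw hs hs2 hs1 c2 c4.le
  refine contra_left hvw c3 c4 a1 a2 ?_
  rw [orient_T]
  exact_mod_cast h3

/-- only the three vertices `allow w` of the `j`-th period see the `w`-th witness -/
theorem vis_allow (h : Ok E) {j : ℕ} (hj : j < k) {i w : ℕ}
    (hi' : i < 10 * k + E.a + (4 * k + E.b + 1)) (hw : w < 13)
    (hs : segment ℝ (vk E k i) (T j (W w)) ⊆ reg E k) :
    ∃ r < 15, r ∈ allow w ∧ i = idx E k j r := by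
  rcases decode h hj hi' with ⟨r, hr, h0⟩ | ⟨j', h1, h2⟩ | ⟨h1, h2 | h2⟩ | ⟨h1, r, h2, h3, h4⟩
  · refine ⟨r, hr, ?_, h0⟩
    by_contra hne
    obtain ⟨s, hs1, hs2⟩ := (chk_local w hw r hr).resolve_left hne
    rw [h0, vk_idx E hj hr] at hs
    exact not_vis_of_blk h hj hs1 hs2 hs
  · exact absurd hs (not_vis_left h hj hw h1 h2)
  · obtain ⟨s, hs1, hs2, hs3⟩ := chk_tb1 w hw
    rw [h2] at hs
    exact absurd hs (not_vis_of_blk h hj hs1 hs3)
  · exact absurd hs (not_vis_right h hj hw h1 h2)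
  · rw [h4, vk_E h k h3] at hs
    exact absurd hs (not_vis_E h h1 hw h3 h2)

/-- which vertices see the `w`-th witness of the end block -/
theorem vis_allowE (h : Ok E) {i w : ℕ} (hi' : i < 10 * k + E.a + (4 * k + E.b + 1))
    (hw : w < E.m) (hs : segment ℝ (vk E k i) (T k (E.w w)) ⊆ reg E k) :
    ∃ r < E.a + E.b + 1, ((r, true) ∈ E.o w ∨ (r, false) ∈ E.o w) ∧ i = 10 * k + r := by
  rcases decodeE h hi' with ⟨r, hr, h0⟩ | ⟨j, h1, h2⟩
  · refine ⟨r, hr, ?_, h0⟩
    by_contra hne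
    obtain ⟨s, hs1, hs2⟩ := (h.loc w hw r hr).resolve_left hne
    rw [h0, vk_E h k hr] at hs
    exact not_vis_of_blkE h hs1 hs2 hs
  · exact absurd hs (not_vis_leftE h h1 hw h2)

end Pool.Agent.H84.Fl
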